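import Pool.Agent.TH524.Mey.Cover
import Pool.Agent.TH832.Mey.Growth

/-!
# Meyniel's bound and neighbourhoods of geodesics

The entropy method of the starting files deals with the vertices outside a set which some other
cops can clear.  Here the sets which are cleared are neighbourhoods of geodesics: `4 r + 1` cops
clear the vertices at distance at most `r` from a geodesic, if there is no cycle of length less than
`4 r - 1` (for `r ≤ 1` this is no condition).
-/

set_option autoImplicit false
open N6ef48c04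
open Pool.Agent.TH524.Mey (Play play_mono play_all play_equiv guard_end Clears clear_bound)
open Pool.Agent.TH832.Mey (SP sh sh_le sh_p sh_step path_step step_symm)

namespace Pool.Agent.Results.MP_964892_co.GeodesicNeighbourhoods

variable {V : Type*}

/-- additional rounds -/
theorem play_add (G : SimpleGraph V) {ι : Type*} (T T' : (ι → V) → V → Prop) (r : ℕ)
    (h : ∀ c x, T c x → Play G T' r c x) (m : ℕ) :
    ∀ c x, Play G T m c x → Play G T' (m + r) c x := by
  induction m with
  | zero =>
    intro c x h1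
    rw [Nat.zero_add]
    exact h c x h1
  | succ m ih =>
    intro c x h1
    rw [Nat.succ_add]
    intro x' hx'
    obtain ⟨c', h2, h3⟩ := h1 x' hx'
    exact ⟨c', h2, ih c' x' h3⟩

/-- A cop on a walk catches the shadow of the robber. -/
theorem catch_shadow (G : SimpleGraph V) {p : ℕ → V} {d : ℕ}
    (hp : ∀ i, i < d → G.Adj (p i) (p (i + 1))) (σ : V → ℕ) (hσ : ∀ x, σ x ≤ d)
    (hl : ∀ x x', Step G x x' → σ x ≤ σ x' + 1) (h : ℕ) :
    ∀ (j : ℕ) (x : V), j ≤ σ x → (j = σ x ∨ d ≤ j + h) →
      Play G (fun (c : Unit → V) x => c () = p (σ x)) h (fun _ => p j) x := by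
  have hstep : ∀ i j, i ≤ d → j ≤ d → i ≤ j + 1 → j ≤ i + 1 → Step G (p i) (p j) := by
    intro i j hi hj h1 h2
    rcases Nat.lt_trichotomy i j with h | rfl | h
    · have : j = i + 1 := by omega
      subst this
      exact Or.inr (hp i (by omega))
    · exact Or.inl rfl
    · have : i = j + 1 := by omega
      subst this
      exact Or.inr (hp j (by omega)).symm
  induction h with
  | zero =>
    intro j x h1 h2
    have h3 := hσ x
    have : j = σ x := by omega
    show p j = p (σ x)
    rw [this]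
  | succ h ih =>
    intro j x h1 h2 x' hx'
    have e1 := hl x x' hx'
    have e2 := hl x' x (step_symm hx')
    have h3 := hσ x
    have h4 := hσ x'
    refine ⟨fun _ => p (min (j + 1) (σ x')), fun _ => hstep _ _ (by omega) (by omega) (by omega)
      (by omega), ih _ _ (by omega) ?_⟩
    omega

/-- the cop gets to the walk first -/
theorem reach_shadow (G : SimpleGraph V) (hG : G.Connected) {p : ℕ → V} {d : ℕ}
    (hp : ∀ i, i < d → G.Adj (p i) (p (i + 1))) (σ : V → ℕ) (hσ : ∀ x, σ x ≤ d)
    (hl : ∀ x x', Step G x x' → σ x ≤ σ x' + 1) (o : V) :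
    ∃ M : ℕ, ∀ h, M ≤ h → ∀ x,
      Play G (fun (c : Unit → V) x => c () = p (σ x)) h (fun _ => o) x := by
  obtain ⟨w⟩ := hG.preconnected o (p 0)
  generalize hv : p 0 = v at w
  induction w with
  | @nil v =>
    subst hv
    exact ⟨d, fun h hh x => catch_shadow G hp σ hσ hl h 0 x (Nat.zero_le _) (Or.inr (by omega))⟩
  | @cons o o' v hadj _ ih =>
    obtain ⟨M, hM⟩ := ih hv
    refine ⟨M + 1, fun h hh x => ?_⟩
    obtain ⟨t, rfl⟩ : ∃ t, h = t + 1 := ⟨h - 1, by omega⟩
    intro x' _
    exact ⟨fun _ => o', fun _ => Or.inr hadj, hM t (by omega) x'⟩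

/-- the shadows with offsets -/
noncomputable def off (G : SimpleGraph V) (p : ℕ → V) (d r i : ℕ) (x : V) : ℕ :=
  min (sh G p d x + i - 2 * r) d

theorem sh_steps (G : SimpleGraph V) (hG : G.Connected) (p : ℕ → V) (d : ℕ) (x y : V) :
    sh G p d x ≤ sh G p d y + G.dist x y := by
  have h := hG.dist_triangle (u := p 0) (v := y) (w := x)
  rw [SimpleGraph.dist_comm (u := y) (v := x)] at h
  unfold sh
  omega

/-- The cop with offset `i` clears the balls around the vertices of the geodesic which are at this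
offset from the shadow, `r` rounds before the end. -/
theorem clear_one (G : SimpleGraph V) (hG : G.Connected) (r : ℕ)
    (hg : ∀ (a : V) (w : G.Walk a a), w.IsCycle → 4 * r - 1 ≤ w.length) {p : ℕ → V} {d : ℕ}
    (hp : SP G p d) (o : V) :
    ∃ M : ℕ, ∀ h, M ≤ h → ∀ x,
      Play G (fun (c : Fin (4 * r + 1) → V) x => (∃ j, j ≤ d ∧ G.dist (p j) x ≤ r) →
        ∃ i, c i = x) h (fun _ => o) x := by
  classical
  have hM : ∀ i : Fin (4 * r + 1), ∃ M : ℕ, ∀ h, M ≤ h → ∀ x,
      Play G (fun (c : Unit → V) x => c () = p (off G p d r i x)) h (fun _ => o) x := by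
    intro i
    refine reach_shadow G hG hp.adj (off G p d r i) (fun x => min_le_right _ _) ?_ o
    intro x x' hx
    have := sh_step hG p d hx
    unfold off
    omega
  choose M hM using hM
  refine ⟨Finset.univ.sup M + r, fun h hh x => ?_⟩
  obtain ⟨m, rfl⟩ : ∃ m, h = m + r := ⟨h - r, by omega⟩
  have hm : Finset.univ.sup M ≤ m := by omega
  have h1 := play_all G (fun (i : Fin (4 * r + 1)) (y x : V) => y = p (off G p d r i x)) m
    (fun _ => o) x (fun i => hM i m ((Finset.le_sup (f := M) (Finset.mem_univ i)).trans hm) x)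
  refine play_add G _ _ r ?_ m _ x h1
  clear h1 hh hm x m
  intro c x hc
  -- now every cop guards a ball
  have h2 : Play G (fun (c : Fin (4 * r + 1) → V) y => ∀ i : Fin (4 * r + 1),
      G.dist (p (off G p d r i x)) y ≤ r → c i = y) r c x := by
    refine play_all G (fun (i : Fin (4 * r + 1)) (z y : V) =>
      G.dist (p (off G p d r i x)) y ≤ r → z = y) r c x fun i => ?_
    have h3 := guard_end G hG r hg (p (off G p d r i x)) r le_rfl x (c i) (fun z hz _ => by
      rw [hc i]
      exact hz)
    exact h3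
  -- the robber is at distance at most `r` from `x`
  have h3 : ∀ (s : ℕ) (c : Fin (4 * r + 1) → V) (y : V),
      Play G (fun (c : Fin (4 * r + 1) → V) y => ∀ i : Fin (4 * r + 1),
        G.dist (p (off G p d r i x)) y ≤ r → c i = y) s c y → G.dist x y + s ≤ r →
      Play G (fun (c : Fin (4 * r + 1) → V) y => (∃ j, j ≤ d ∧ G.dist (p j) y ≤ r) →
        ∃ i, c i = y) s c y := by
    intro s
    induction s with
    | zero =>
      rintro c y h4 h5 ⟨j, hj, hjy⟩
      have e1 := sh_steps G hG p d x y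
      have e2 := sh_steps G hG p d y x
      have e3 := sh_steps G hG p d (p j) y
      have e4 := sh_steps G hG p d y (p j)
      rw [SimpleGraph.dist_comm] at e2 e4
      rw [sh_p hp hj] at e3 e4
      have e5 := sh_le G p d x
      have hlt : j + 2 * r - sh G p d x < 4 * r + 1 := by omega
      refine ⟨⟨j + 2 * r - sh G p d x, hlt⟩, h4 _ ?_⟩
      have : off G p d r (j + 2 * r - sh G p d x) x = j := by
        unfold off
        omega
      show G.dist (p (off G p d r (j + 2 * r - sh G p d x) x)) y ≤ r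
      rw [this]
      exact hjy
    | succ s ih =>
      intro c y h4 h5 y' hy'
      obtain ⟨c', h6, h7⟩ := h4 y' hy'
      refine ⟨c', h6, ih c' y' h7 ?_⟩
      have h8 := Pool.Agent.TH832.Mey.dist_step hG (step_symm hy') x
      omega
  exact h3 r c x h2 (by simp)

/-- Several teams play at the same time. -/
theorem play_teams (G : SimpleGraph V) {ι κ : Type*} (T : ι → (κ → V) → V → Prop) (h : ℕ) :
    ∀ (c : ι × κ → V) (x : V), (∀ i, Play G (T i) h (fun k => c (i, k)) x) →
      Play G (fun c x => ∀ i, T i (fun k => c (i, k)) x) h c x := by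
  induction h with
  | zero => exact fun c x h1 => h1
  | succ h ih =>
    intro c x h1 x' hx'
    have key : ∀ i, ∃ c' : κ → V, (∀ k, Step G (c (i, k)) (c' k)) ∧ Play G (T i) h c' x' :=
      fun i => h1 i x' hx'
    choose c' h2 h3 using key
    exact ⟨fun q => c' q.1 q.2, fun q => h2 q.1 q.2, ih _ x' fun i => h3 i⟩

/-- `(4 r + 1) |S|` cops clear the neighbourhoods of the geodesics in `S`. -/
theorem fam_clear [Fintype V] (G : SimpleGraph V) (hG : G.Connected) (r : ℕ)
    (hg : ∀ (a : V) (w : G.Walk a a), w.IsCycle → 4 * r - 1 ≤ w.length) {ι : Type*}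
    (P : ι → ℕ → V) (D : ι → ℕ) (hP : ∀ s, SP G (P s) (D s)) (S : Finset ι) (W : Finset V)
    (hW : ∀ z ∈ W, ∃ s ∈ S, ∃ j, j ≤ D s ∧ G.dist (P s j) z ≤ r) :
    Clears G (S.card * (4 * r + 1)) W := by
  classical
  intro o
  have hguard : ∀ s : S, ∃ M : ℕ, ∀ h, M ≤ h → ∀ x,
      Play G (fun (c : Fin (4 * r + 1) → V) x => (∃ j, j ≤ D s ∧ G.dist (P s j) x ≤ r) →
        ∃ i, c i = x) h (fun _ => o) x := fun s => clear_one G hG r hg (hP s) o
  choose M hM using hguard
  refine ⟨Finset.univ.sup M, fun m hm x => ?_⟩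
  have hB := play_teams G (fun (s : S) (c : Fin (4 * r + 1) → V) x =>
    (∃ j, j ≤ D s ∧ G.dist (P s j) x ≤ r) → ∃ i, c i = x) m (fun _ => o) x
    (fun s => hM s m ((Finset.le_sup (f := M) (Finset.mem_univ s)).trans hm) x)
  have e : Fin (S.card * (4 * r + 1)) ≃ S × Fin (4 * r + 1) :=
    finProdFinEquiv.symm.trans (Equiv.prodCongr S.equivFin.symm (Equiv.refl _))
  refine play_mono G _ _ ?_ m _ x (play_equiv G e _ m (fun _ => o) x hB)
  intro c x h1 hx
  obtain ⟨s, hs, j, hj, hd⟩ := hW x hx
  obtain ⟨i, hi⟩ := h1 ⟨s, hs⟩ ⟨j, hj, hd⟩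
  exact ⟨e.symm (⟨s, hs⟩, i), hi⟩

/-- A greedy cover. -/
theorem greedy [Fintype V] [Nonempty V] {ι : Type*} [Fintype ι] [Nonempty ι]
    (N : ι → V → Prop) (q : ℝ) (T : Finset V)
    (hT : ∀ z ∈ T, q * Fintype.card ι ≤ (Nat.card {s : ι // N s z} : ℝ)) (t : ℕ) :
    ∃ (S : Finset ι) (U : Finset V), S.card ≤ t ∧
      (U.card : ℝ) ≤ Fintype.card V * Real.exp (-(t * q)) ∧ U ⊆ T ∧
      ∀ z ∈ T, z ∉ U → ∃ s ∈ S, N s z := by
  classical
  have hn : (0 : ℝ) < Fintype.card V := by exact_mod_cast Fintype.card_pos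
  have hi : (0 : ℝ) < Fintype.card ι := by exact_mod_cast Fintype.card_pos
  set n : ℝ := (Fintype.card V : ℝ) with hndef
  induction t with
  | zero =>
    refine ⟨∅, T, le_rfl, ?_, le_rfl, fun z h1 h2 => absurd h1 h2⟩
    have h1 : T.card ≤ Fintype.card V := Finset.card_le_univ _
    have h2 : (T.card : ℝ) ≤ n := by
      rw [hndef]
      exact_mod_cast h1
    simpa using h2
  | succ t ih =>
    obtain ⟨S, U, hS, hU, hUT, hcov⟩ := ih
    have hdc : q * Fintype.card ι * U.card ≤ ∑ s : ι, ((U.filter fun z => N s z).card : ℝ) := by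
      calc q * Fintype.card ι * U.card = ∑ _z ∈ U, q * Fintype.card ι := by
            rw [Finset.sum_const, nsmul_eq_mul, mul_comm]
        _ ≤ ∑ z ∈ U, ((Finset.univ.filter fun s => N s z).card : ℝ) :=
            Finset.sum_le_sum fun z hz => by
              have := hT z (hUT hz)
              rwa [Nat.card_eq_fintype_card, Fintype.card_subtype] at this
        _ = ∑ s : ι, ((U.filter fun z => N s z).card : ℝ) := by
            simp only [Finset.card_filter]
            push_cast
            rw [Finset.sum_comm]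
    obtain ⟨s, -, hs⟩ : ∃ s ∈ (Finset.univ : Finset ι),
        q * U.card ≤ ((U.filter fun z => N s z).card : ℝ) := by
      apply Finset.exists_le_of_sum_le Finset.univ_nonempty
      rw [Finset.sum_const, Finset.card_univ, nsmul_eq_mul]
      refine le_trans (le_of_eq ?_) hdc
      ring
    refine ⟨insert s S, U \ (U.filter fun z => N s z),
      (Finset.card_insert_le _ _).trans (by omega), ?_, Finset.sdiff_subset.trans hUT, ?_⟩
    · have h2 : (U \ (U.filter fun z => N s z)).card = U.card - (U.filter fun z => N s z).card :=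
        Finset.card_sdiff_of_subset (Finset.filter_subset _ _)
      have h3 : (U.filter fun z => N s z).card ≤ U.card :=
        Finset.card_le_card (Finset.filter_subset _ _)
      have h4 : ((U \ (U.filter fun z => N s z)).card : ℝ) =
          U.card - ((U.filter fun z => N s z).card : ℝ) := by
        rw [h2, Nat.cast_sub h3]
      have h5 : 1 - q ≤ Real.exp (-q) := by
        have := Real.add_one_le_exp (-q)
        linarith
      have hU0 : (0 : ℝ) ≤ U.card := Nat.cast_nonneg _
      calc ((U \ (U.filter fun z => N s z)).card : ℝ)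
          ≤ U.card * (1 - q) := by
            rw [h4]
            linarith
        _ ≤ U.card * Real.exp (-q) := mul_le_mul_of_nonneg_left h5 hU0
        _ ≤ (n * Real.exp (-(t * q))) * Real.exp (-q) :=
            mul_le_mul_of_nonneg_right hU (Real.exp_pos _).le
        _ = n * Real.exp (-((t + 1 : ℕ) * q)) := by
            rw [mul_assoc, ← Real.exp_add]
            push_cast
            ring_nf
    · intro z hz hzU
      by_cases h1 : z ∈ U
      · refine ⟨s, Finset.mem_insert_self s S, ?_⟩
        by_contra h2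
        exact hzU (Finset.mem_sdiff.2 ⟨h1, fun h => h2 (Finset.mem_filter.1 h).2⟩)
      · obtain ⟨w, hw, h2⟩ := hcov z hz h1
        exact ⟨w, Finset.mem_insert_of_mem hw, h2⟩

/-- The cop number and a family of geodesics. -/
theorem fam_bound [Fintype V] [DecidableEq V] (G : SimpleGraph V) (hG : G.Connected) (r : ℕ)
    (hg : ∀ (a : V) (w : G.Walk a a), w.IsCycle → 4 * r - 1 ≤ w.length) {ι : Type*} [Fintype ι]
    [Nonempty ι] (P : ι → ℕ → V) (D : ι → ℕ) (hP : ∀ s, SP G (P s) (D s)) (q : ℝ) (hq : 0 < q)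
    (X : Finset V) (hX : ∀ z, z ∉ X → q * Fintype.card ι ≤
      (Nat.card {s : ι // ∃ j, j ≤ D s ∧ G.dist (P s j) z ≤ r} : ℝ)) :
    (copNumber G : ℝ) ≤ (4 * r + 1) * (2 / q * Real.log (Real.log (Fintype.card V) + 1) + 1) +
      81 * √(Fintype.card V : ℝ) + 81 * √(X.card : ℝ) * (Real.log (Fintype.card V) + 1) := by
  classical
  have hV : Nonempty V := hG.nonempty
  have hn1 : (1 : ℝ) ≤ Fintype.card V := by exact_mod_cast Fintype.card_pos
  set n : ℝ := (Fintype.card V : ℝ) with hndef
  have hn0 : 0 < n := by linarith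
  have hlog0 : 0 ≤ Real.log n := Real.log_nonneg hn1
  set l : ℝ := Real.log n + 1 with hl
  have hl1 : 1 ≤ l := by linarith
  have hll : 0 ≤ Real.log l := Real.log_nonneg hl1
  set t : ℕ := ⌈2 / q * Real.log l⌉₊ with ht
  have ht1 : 2 / q * Real.log l ≤ t := Nat.le_ceil _
  have ht2 : (t : ℝ) ≤ 2 / q * Real.log l + 1 := (Nat.ceil_lt_add_one (by positivity)).le
  obtain ⟨S, Y, hS, hU, -, hcov⟩ := greedy (fun (s : ι) (z : V) =>
    ∃ j, j ≤ D s ∧ G.dist (P s j) z ≤ r) q Xᶜ (fun z hz => hX z (Finset.mem_compl.1 hz)) t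
  rw [← hndef] at hU
  have hYl : (Y.card : ℝ) ≤ n / l ^ 2 := by
    refine hU.trans ?_
    rw [div_eq_mul_inv]
    refine mul_le_mul_of_nonneg_left ?_ hn0.le
    have h1 : 2 * Real.log l ≤ t * q := by
      have h2 : 2 / q * Real.log l * q = 2 * Real.log l := by
        field_simp
      rw [← h2]
      exact mul_le_mul_of_nonneg_right ht1 hq.le
    have h3 : Real.exp (-(2 * Real.log l)) = (l ^ 2)⁻¹ := by
      rw [Real.exp_neg, two_mul, Real.exp_add, Real.exp_log (by linarith), sq]
    rw [← h3]
    exact Real.exp_le_exp.2 (neg_le_neg h1)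
  set W : Finset V := (X ∪ Y)ᶜ with hWdef
  have hclear : Clears G (S.card * (4 * r + 1)) W := by
    refine fam_clear G hG r hg P D hP S W fun z hz => ?_
    rw [hWdef, Finset.mem_compl, Finset.mem_union, not_or] at hz
    exact hcov z (Finset.mem_compl.2 hz.1) hz.2
  have hmain := clear_bound G hG _ W hclear
  rw [hWdef, compl_compl] at hmain
  have hXY : ((X ∪ Y).card : ℝ) ≤ X.card + Y.card := by exact_mod_cast Finset.card_union_le X Y
  have hsq : √((X ∪ Y).card : ℝ) ≤ √(X.card : ℝ) + √n / l := by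
    apply Real.sqrt_le_iff.2
    have h0 : (0 : ℝ) ≤ √(X.card : ℝ) := Real.sqrt_nonneg _
    have h1 : (0 : ℝ) ≤ √n / l := by positivity
    refine ⟨by positivity, ?_⟩
    have h2 : √(X.card : ℝ) ^ 2 = X.card := Real.sq_sqrt (Nat.cast_nonneg _)
    have h3 : (√n / l) ^ 2 = n / l ^ 2 := by
      rw [div_pow, Real.sq_sqrt hn0.le]
    nlinarith [mul_nonneg h0 h1]
  have hSt : (S.card : ℝ) ≤ 2 / q * Real.log l + 1 := le_trans (by exact_mod_cast hS) ht2
  have h5 : ((S.card * (4 * r + 1) : ℕ) : ℝ) ≤ (4 * r + 1) * (2 / q * Real.log l + 1) := by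
    push_cast
    rw [mul_comm]
    exact mul_le_mul_of_nonneg_left hSt (by positivity)
  have h6 : 81 * √((X ∪ Y).card : ℝ) * l ≤ 81 * (√(X.card : ℝ) + √n / l) * l := by
    have : 81 * √((X ∪ Y).card : ℝ) ≤ 81 * (√(X.card : ℝ) + √n / l) := by linarith
    exact mul_le_mul_of_nonneg_right this (by linarith)
  have h7 : 81 * (√(X.card : ℝ) + √n / l) * l = 81 * √(X.card : ℝ) * l + 81 * √n := by
    have hl0 : l ≠ 0 := by linarith
    field_simp
  linarith

theorem dist_iso (G : SimpleGraph V) (hG : G.Connected) (φ : G ≃g G) (x y : V) :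
    G.dist (φ x) (φ y) = G.dist x y := by
  have h : ∀ (ψ : G ≃g G) (x y : V), G.dist (ψ x) (ψ y) ≤ G.dist x y := by
    intro ψ x y
    obtain ⟨w, hw⟩ := hG.exists_walk_length_eq_dist x y
    have := SimpleGraph.dist_le (w.map ψ.toHom)
    rw [SimpleGraph.Walk.length_map, hw] at this
    exact this
  refine le_antisymm (h φ x y) ?_
  have := h φ.symm (φ x) (φ y)
  simpa using this

/-- the number of vertices near a geodesic -/
theorem near_card [Fintype V] (G : SimpleGraph V) (hG : G.Connected) (r D b : ℕ) {p : ℕ → V}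
    (hp : SP G p D) (hb : ∀ v : V, b ≤ Nat.card {w // G.dist v w ≤ r}) :
    (D + 1) * b ≤ (2 * r + 1) * Nat.card {w // ∃ j, j ≤ D ∧ G.dist (p j) w ≤ r} := by
  classical
  have h1 : (D + 1) * b ≤ ∑ j ∈ Finset.range (D + 1),
      (Finset.univ.filter fun w => G.dist (p j) w ≤ r).card := by
    calc (D + 1) * b = ∑ _j ∈ Finset.range (D + 1), b := by simp
      _ ≤ _ := Finset.sum_le_sum fun j _ => by
        have := hb (p j)
        rwa [Nat.card_eq_fintype_card, Fintype.card_subtype] at this
  refine h1.trans ?_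
  rw [Nat.card_eq_fintype_card, Fintype.card_subtype]
  simp only [Finset.card_filter]
  rw [Finset.sum_comm, Finset.mul_sum]
  refine Finset.sum_le_sum fun w _ => ?_
  split_ifs with hw
  · rw [mul_one, ← Finset.card_filter]
    obtain ⟨j, hj, hjw⟩ := hw
    have hsub : (Finset.range (D + 1)).filter (fun i => G.dist (p i) w ≤ r) ⊆
        Finset.Icc (G.dist (p 0) w - r) (G.dist (p 0) w + r) := by
      intro i hi
      rw [Finset.mem_filter, Finset.mem_range] at hi
      have e1 := hG.dist_triangle (u := p 0) (v := w) (w := p i)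
      have e2 := hG.dist_triangle (u := p 0) (v := p i) (w := w)
      rw [SimpleGraph.dist_comm (u := w) (v := p i)] at e1
      have e3 := hp.dist i (by omega)
      rw [Finset.mem_Icc]
      omega
    refine (Finset.card_le_card hsub).trans ?_
    rw [Nat.card_Icc]
    omega
  · have : ∀ j ∈ Finset.range (D + 1), ¬ G.dist (p j) w ≤ r := by
      intro j hj h
      exact hw ⟨j, by rw [Finset.mem_range] at hj; omega, h⟩
    rw [Finset.sum_eq_zero (fun j hj => if_neg (this j hj))]
    exact Nat.zero_le _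

/-- the images of a geodesic under the automorphisms -/
theorem orbit_count [Fintype V] (G : SimpleGraph V) (hG : G.Connected)
    (htr : ∀ u v : V, ∃ φ : G ≃g G, φ u = v) (r D : ℕ) (p : ℕ → V) (z : V) :
    Nat.card {w // ∃ j, j ≤ D ∧ G.dist (p j) w ≤ r} * Nat.card (G ≃g G) =
      Nat.card {φ : G ≃g G // ∃ j, j ≤ D ∧ G.dist (φ (p j)) z ≤ r} * Fintype.card V := by
  classical
  have hfin : Finite (G ≃g G) := Finite.of_injective (fun φ : G ≃g G => (φ : V → V))
    (fun φ ψ h => by
      ext x
      exact congrFun h x)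
  let _ : Fintype (G ≃g G) := Fintype.ofFinite _
  set A : V → ℕ := fun w => (Finset.univ.filter fun φ : G ≃g G => φ w = z).card with hA
  have hAA : ∀ w w', A w = A w' := by
    intro w w'
    obtain ⟨ψ, hψ⟩ := htr w' w
    refine Finset.card_bij (fun φ _ => ψ.trans φ) ?_ ?_ ?_
    · intro φ hφ
      have h1 := (Finset.mem_filter.1 hφ).2
      refine Finset.mem_filter.2 ⟨Finset.mem_univ _, ?_⟩
      show φ (ψ w') = z
      rw [hψ]
      exact h1
    · intro φ _ φ' _ h
      ext x
      have := congrArg (fun χ : G ≃g G => χ (ψ.symm x)) h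
      simpa using this
    · intro χ hχ
      have h1 := (Finset.mem_filter.1 hχ).2
      refine ⟨ψ.symm.trans χ, Finset.mem_filter.2 ⟨Finset.mem_univ _, ?_⟩, ?_⟩
      · show χ (ψ.symm w) = z
        have : ψ.symm w = w' := by
          rw [← hψ]
          simp
        rw [this]
        exact h1
      · ext x
        simp
  obtain ⟨w0⟩ := hG.nonempty
  have h1 : Fintype.card (G ≃g G) = Fintype.card V * A w0 := by
    have := Finset.card_eq_sum_card_fiberwise (f := fun φ : G ≃g G => φ.symm z)
      (s := Finset.univ) (t := Finset.univ) (fun _ _ => Finset.mem_coe.2 (Finset.mem_univ _))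
    rw [Finset.card_univ] at this
    rw [this]
    have h2 : ∀ w ∈ (Finset.univ : Finset V),
        ((Finset.univ : Finset (G ≃g G)).filter fun φ => φ.symm z = w).card = A w0 := by
      intro w _
      rw [← hAA w w0, hA]
      congr 1
      ext φ
      simp only [Finset.mem_filter, Finset.mem_univ, true_and]
      constructor
      · rintro rfl
        simp
      · rintro rfl
        simp
    rw [Finset.sum_congr rfl h2]
    simp
  have h3 : Nat.card {φ : G ≃g G // ∃ j, j ≤ D ∧ G.dist (φ (p j)) z ≤ r} =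
      Nat.card {w // ∃ j, j ≤ D ∧ G.dist (p j) w ≤ r} * A w0 := by
    rw [Nat.card_eq_fintype_card, Nat.card_eq_fintype_card, Fintype.card_subtype,
      Fintype.card_subtype]
    set N := Finset.univ.filter fun w => ∃ j, j ≤ D ∧ G.dist (p j) w ≤ r with hN
    have := Finset.card_eq_sum_card_fiberwise (f := fun φ : G ≃g G => φ.symm z)
      (s := Finset.univ.filter fun φ : G ≃g G => ∃ j, j ≤ D ∧ G.dist (φ (p j)) z ≤ r) (t := N)
      (fun φ hφ => by
        obtain ⟨j, hj, h⟩ := (Finset.mem_filter.1 (Finset.mem_coe.1 hφ)).2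
        refine Finset.mem_coe.2 (Finset.mem_filter.2 ⟨Finset.mem_univ _, j, hj, ?_⟩)
        rw [← dist_iso G hG φ]
        simpa using h)
    rw [this]
    have h2 : ∀ w ∈ N, ((Finset.univ.filter fun φ : G ≃g G =>
        ∃ j, j ≤ D ∧ G.dist (φ (p j)) z ≤ r).filter fun φ => φ.symm z = w).card = A w0 := by
      intro w hw
      rw [← hAA w w0, hA]
      congr 1
      ext φ
      simp only [Finset.mem_filter, Finset.mem_univ, true_and]
      constructor
      · rintro ⟨_, rfl⟩
        simp
      · rintro rfl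
        obtain ⟨j, hj, h⟩ := (Finset.mem_filter.1 hw).2
        refine ⟨⟨j, hj, ?_⟩, by simp⟩
        rw [dist_iso G hG φ]
        exact h
    rw [Finset.sum_congr rfl h2]
    simp
  rw [h3, Nat.card_eq_fintype_card (α := G ≃g G), h1]
  ring

/-- The cop number of a vertex-transitive graph. -/
theorem transitive_bound [Fintype V] (G : SimpleGraph V) (hG : G.Connected)
    (htr : ∀ u v : V, ∃ φ : G ≃g G, φ u = v) (r : ℕ)
    (hg : ∀ (a : V) (w : G.Walk a a), w.IsCycle → 4 * r - 1 ≤ w.length) (D : ℕ) (u v : V)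
    (hD : D ≤ G.dist u v) :
    (copNumber G : ℝ) ≤ (4 * r + 1) * (2 * (2 * r + 1) * Fintype.card V /
      ((D + 1) * (Nat.card {w // G.dist u w ≤ r} : ℝ)) *
        Real.log (Real.log (Fintype.card V) + 1) + 1) + 81 * √(Fintype.card V : ℝ) := by
  classical
  obtain ⟨p, hp⟩ := Pool.Agent.TH832.Mey.exists_sp hG u v D hD
  have hV : Nonempty V := hG.nonempty
  have hfin : Finite (G ≃g G) := Finite.of_injective (fun φ : G ≃g G => (φ : V → V))
    (fun φ ψ h => by
      ext x
      exact congrFun h x)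
  let _ : Fintype (G ≃g G) := Fintype.ofFinite _
  have hne : Nonempty (G ≃g G) := ⟨SimpleGraph.Iso.refl⟩
  have hn1 : (1 : ℝ) ≤ Fintype.card V := by exact_mod_cast Fintype.card_pos
  set n : ℝ := (Fintype.card V : ℝ) with hndef
  have hn0 : 0 < n := by linarith
  set b : ℕ := Nat.card {w // G.dist u w ≤ r} with hb
  set N : ℕ := Nat.card {w // ∃ j, j ≤ D ∧ G.dist (p j) w ≤ r} with hN
  have hbe : ∀ x : V, b ≤ Nat.card {w // G.dist x w ≤ r} := by
    intro x
    obtain ⟨φ, hφ⟩ := htr u x
    rw [hb]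
    refine Nat.card_le_card_of_injective (fun w => ⟨φ w.1, ?_⟩) ?_
    · rw [← hφ, dist_iso G hG φ]
      exact w.2
    · intro a a' h
      have := congrArg Subtype.val h
      exact Subtype.ext (φ.injective this)
  have hnear : (D + 1) * b ≤ (2 * r + 1) * N := near_card G hG r D b hp hbe
  have hb0 : 0 < b := by
    have : Nonempty {w // G.dist u w ≤ r} := ⟨⟨u, by simp⟩⟩
    exact Nat.card_pos
  have hN0 : 0 < N := by
    by_contra h
    have : N = 0 := by omega
    rw [this, mul_zero] at hnear
    have : 0 < (D + 1) * b := by positivity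
    omega
  have hbR : (0 : ℝ) < b := by exact_mod_cast hb0
  have hNR : (0 : ℝ) < N := by exact_mod_cast hN0
  have hmain := fam_bound G hG r hg (fun (φ : G ≃g G) j => φ (p j)) (fun _ => D) (fun φ => by
      refine ⟨fun i hi => φ.map_adj_iff.2 (hp.adj i hi), fun i hi => ?_⟩
      show G.dist (φ (p 0)) (φ (p i)) = i
      rw [dist_iso G hG φ]
      exact hp.dist i hi) (N / n) (by positivity) ∅ (fun z _ => by
      have h1 := orbit_count G hG htr r D p z
      rw [← hN] at h1
      have h2 : (N : ℝ) * (Nat.card (G ≃g G) : ℝ) =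
        (Nat.card {φ : G ≃g G // ∃ j, j ≤ D ∧ G.dist (φ (p j)) z ≤ r} : ℝ) * n := by
        rw [hndef]
        exact_mod_cast h1
      rw [Nat.card_eq_fintype_card (α := G ≃g G)] at h2
      rw [div_mul_eq_mul_div, h2, mul_div_assoc, div_self hn0.ne', mul_one])
  rw [Finset.card_empty, Nat.cast_zero, Real.sqrt_zero, mul_zero, zero_mul, add_zero] at hmain
  have hlog0 : 0 ≤ Real.log n := Real.log_nonneg hn1
  have hll : 0 ≤ Real.log (Real.log n + 1) := Real.log_nonneg (by linarith)
  have h3 : 2 / (N / n) ≤ 2 * (2 * r + 1) * n / ((D + 1) * b) := by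
    rw [div_div_eq_mul_div, div_le_div_iff₀ hNR (by positivity)]
    have h4 : ((D : ℝ) + 1) * b ≤ (2 * r + 1) * N := by exact_mod_cast hnear
    nlinarith
  have h4 : 2 / (N / n) * Real.log (Real.log n + 1) ≤
      2 * (2 * r + 1) * n / ((D + 1) * b) * Real.log (Real.log n + 1) :=
    mul_le_mul_of_nonneg_right h3 hll
  have h5 : (0 : ℝ) ≤ 4 * r + 1 := by positivity
  nlinarith [mul_le_mul_of_nonneg_left h4 h5]

/-- `p 0, …, p d` is a shortest path of length `d`. -/
def IsGeodesic {V : Type*} (G : SimpleGraph V) (p : ℕ → V) (d : ℕ) : Prop :=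
  (∀ i, i < d → G.Adj (p i) (p (i + 1))) ∧ ∀ i, i ≤ d → G.dist (p 0) (p i) = i

/-- Let `G` be a connected graph on `n` vertices, and let `r` be such that `G` has no cycle of
length less than `4 r - 1` (this is no condition if `r ≤ 1`). A vertex is near a geodesic if it is at
distance at most `r` from one of its vertices.
(1) If all the vertices outside `X` are near one of `k` geodesics, then
`c(G) ≤ (4 r + 1) k + 81 √|X| (log n + 1)`.
(2) If for some finite family of geodesics every vertex outside `X` is near at least a proportion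
`q > 0` of them, then
`c(G) ≤ (4 r + 1) ((2 / q) log (log n + 1) + 1) + 81 √n + 81 √|X| (log n + 1)`.
(3) If `G` is vertex-transitive, its balls of radius `r` have `b` vertices and its diameter is at
least `D`, then
`c(G) ≤ (4 r + 1) (2 (2 r + 1) n log (log n + 1) / ((D + 1) b) + 1) + 81 √n`; so
`c(G) ≤ ((4 r + 1) (4 r + 3) + 81) √n` if `(D + 1) b ≥ √n log (log n + 1)`.
(4) If `G` is vertex-transitive of degree `d`, its diameter is at least `D` and
`(D + 1) (d + 1) ≥ √n log (log n + 1)`, then `c(G) ≤ 116 √n`. -/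
theorem result {V : Type*} [Fintype V] (G : SimpleGraph V) (hG : G.Connected) :
    (∀ r : ℕ, (∀ (a : V) (w : G.Walk a a), w.IsCycle → 4 * r - 1 ≤ w.length) →
      (∀ (k : ℕ) (P : Fin k → ℕ → V) (D : Fin k → ℕ), (∀ s, IsGeodesic G (P s) (D s)) →
        ∀ X : Finset V, (∀ z, z ∉ X → ∃ s j, j ≤ D s ∧ G.dist (P s j) z ≤ r) →
        (copNumber G : ℝ) ≤ (4 * r + 1) * k +
          81 * √(X.card : ℝ) * (Real.log (Fintype.card V) + 1)) ∧
      (∀ (ι : Type) [Fintype ι] [Nonempty ι] (P : ι → ℕ → V) (D : ι → ℕ),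
        (∀ s, IsGeodesic G (P s) (D s)) → ∀ q : ℝ, 0 < q → ∀ X : Finset V,
        (∀ z, z ∉ X → q * Fintype.card ι ≤
          (Nat.card {s : ι // ∃ j, j ≤ D s ∧ G.dist (P s j) z ≤ r} : ℝ)) →
        (copNumber G : ℝ) ≤
          (4 * r + 1) * (2 / q * Real.log (Real.log (Fintype.card V) + 1) + 1) +
            81 * √(Fintype.card V : ℝ) +
            81 * √(X.card : ℝ) * (Real.log (Fintype.card V) + 1)) ∧
      ((∀ u v : V, ∃ φ : G ≃g G, φ u = v) → ∀ (D : ℕ) (u v : V), D ≤ G.dist u v →
        (copNumber G : ℝ) ≤ (4 * r + 1) * (2 * (2 * r + 1) * Fintype.card V /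
          ((D + 1) * (Nat.card {w // G.dist u w ≤ r} : ℝ)) *
            Real.log (Real.log (Fintype.card V) + 1) + 1) + 81 * √(Fintype.card V : ℝ) ∧
        (√(Fintype.card V : ℝ) * Real.log (Real.log (Fintype.card V) + 1) ≤
            (D + 1) * (Nat.card {w // G.dist u w ≤ r} : ℝ) →
          (copNumber G : ℝ) ≤ ((4 * r + 1) * (4 * r + 3) + 81) * √(Fintype.card V : ℝ)))) ∧
    ((∀ u v : V, ∃ φ : G ≃g G, φ u = v) → ∀ (D : ℕ) (u v : V), D ≤ G.dist u v →
      √(Fintype.card V : ℝ) * Real.log (Real.log (Fintype.card V) + 1) ≤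
        (D + 1) * ((G.neighborSet u).ncard + 1) →
      (copNumber G : ℝ) ≤ 116 * √(Fintype.card V : ℝ)) := by
  classical
  have hV : Nonempty V := hG.nonempty
  have hn1 : (1 : ℝ) ≤ Fintype.card V := by exact_mod_cast Fintype.card_pos
  have hs1 : 1 ≤ √(Fintype.card V : ℝ) := Real.one_le_sqrt.2 hn1
  have hlog0 : 0 ≤ Real.log (Fintype.card V : ℝ) := Real.log_nonneg hn1
  have hll : 0 ≤ Real.log (Real.log (Fintype.card V) + 1) := Real.log_nonneg (by linarith)
  have main3 : ∀ r : ℕ, (∀ (a : V) (w : G.Walk a a), w.IsCycle → 4 * r - 1 ≤ w.length) →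
      (∀ u v : V, ∃ φ : G ≃g G, φ u = v) → ∀ (D : ℕ) (u v : V), D ≤ G.dist u v →
        √(Fintype.card V : ℝ) * Real.log (Real.log (Fintype.card V) + 1) ≤
            (D + 1) * (Nat.card {w // G.dist u w ≤ r} : ℝ) →
          (copNumber G : ℝ) ≤ ((4 * r + 1) * (4 * r + 3) + 81) * √(Fintype.card V : ℝ) := by
    intro r hg htr D u v hD hb
    have h1 := transitive_bound G hG htr r hg D u v hD
    have hb0 : 0 < Nat.card {w // G.dist u w ≤ r} := by
      have : Nonempty {w // G.dist u w ≤ r} := ⟨⟨u, by simp⟩⟩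
      exact Nat.card_pos
    have hbR : (0 : ℝ) < (D + 1) * (Nat.card {w // G.dist u w ≤ r} : ℝ) := by
      have : (0 : ℝ) < (Nat.card {w // G.dist u w ≤ r} : ℝ) := by exact_mod_cast hb0
      positivity
    set n : ℝ := (Fintype.card V : ℝ) with hndef
    set B : ℝ := (D + 1) * (Nat.card {w // G.dist u w ≤ r} : ℝ) with hB
    have h2 : n * Real.log (Real.log n + 1) / B ≤ √n := by
      rw [div_le_iff₀ hbR]
      have h3 : n = √n * √n := (Real.mul_self_sqrt (by linarith)).symm
      calc n * Real.log (Real.log n + 1) = √n * (√n * Real.log (Real.log n + 1)) := by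
            rw [← mul_assoc, ← h3]
        _ ≤ √n * B := mul_le_mul_of_nonneg_left hb (by positivity)
    have h4 : 2 * (2 * (r : ℝ) + 1) * n / B * Real.log (Real.log n + 1) =
        2 * (2 * r + 1) * (n * Real.log (Real.log n + 1) / B) := by ring
    rw [h4] at h1
    have h5 : (0 : ℝ) ≤ 4 * r + 1 := by positivity
    have h6 : (0 : ℝ) ≤ 2 * (2 * r + 1) := by positivity
    have h7 := mul_le_mul_of_nonneg_left h2 h6
    have h8 : (4 * (r : ℝ) + 1) * (2 * (2 * r + 1) * (n * Real.log (Real.log n + 1) / B) + 1) ≤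
        (4 * r + 1) * (2 * (2 * r + 1) * √n + √n) :=
      mul_le_mul_of_nonneg_left (by linarith) h5
    have h9 : ((4 * (r : ℝ) + 1) * (4 * r + 3) + 81) * √n =
        (4 * r + 1) * (2 * (2 * r + 1) * √n + √n) + 81 * √n := by ring
    rw [h9]
    linarith
  refine ⟨fun r hg => ⟨?_, ?_, ?_⟩, ?_⟩
  · intro k P D hP X hX
    have hclear : Clears G (k * (4 * r + 1)) Xᶜ := by
      have := fam_clear G hG r hg P D (fun s => ⟨(hP s).1, (hP s).2⟩) Finset.univ Xᶜ
        (fun z hz => by
          obtain ⟨s, j, hj, hd⟩ := hX z (Finset.mem_compl.1 hz)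
          exact ⟨s, Finset.mem_univ s, j, hj, hd⟩)
      simpa using this
    have := clear_bound G hG _ Xᶜ hclear
    rw [compl_compl] at this
    push_cast at this
    linarith
  · intro ι _ _ P D hP q hq X hX
    exact fam_bound G hG r hg P D (fun s => ⟨(hP s).1, (hP s).2⟩) q hq X hX
  · intro htr D u v hD
    exact ⟨transitive_bound G hG htr r hg D u v hD, main3 r hg htr D u v hD⟩
  · intro htr D u v hD hb
    have h1 := main3 1 (fun a w hw => hw.three_le_length) htr D u v hD
    have h2 : Nat.card {w // G.dist u w ≤ 1} = (G.neighborSet u).ncard + 1 := by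
      have h3 : {w | G.dist u w ≤ 1} = insert u (G.neighborSet u) := by
        ext w
        constructor
        · intro h
          have h4 : G.dist u w ≤ 1 := h
          rcases Nat.lt_or_ge (G.dist u w) 1 with h5 | h5
          · left
            have : G.dist u w = 0 := by omega
            exact ((hG.dist_eq_zero_iff).1 this).symm
          · right
            exact SimpleGraph.dist_eq_one_iff_adj.1 (by omega)
        · rintro (rfl | h)
          · show G.dist w w ≤ 1
            simp
          · show G.dist u w ≤ 1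
            exact (SimpleGraph.dist_eq_one_iff_adj.2 h).le
      have h4 : Nat.card {w // G.dist u w ≤ 1} = ({w | G.dist u w ≤ 1} : Set V).ncard := rfl
      rw [h4, h3, Set.ncard_insert_of_notMem (by simp)]
    rw [h2] at h1
    have h3 := h1 (by push_cast; exact hb)
    push_cast at h3
    linarith

end Pool.Agent.Results.MP_964892_co.GeodesicNeighbourhoods
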