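import Pool.Agent.TH524.Mey.Guard

/-!
# Meyniel's bound and isometric Helly subgraphs

The entropy method of the starting files deals with the vertices outside a set which some other
cops can clear.  Here one cop clears any isometric subgraph whose balls have the Helly property,
for instance any isometric subtree.
-/

set_option autoImplicit false
open N6ef48c04
open Pool.Agent.TH524.Mey (Play play_mono play_all Clears clear_bound dist_step)

namespace Pool.Agent.Results.MP_964892_co.IsometricHelly

/-- The balls of `K` have the Helly property: if the balls (centre, radius) of a finite family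
satisfy `d(x, y) ≤ ρ + σ` for all members `(x, ρ)`, `(y, σ)`, then they have a common vertex. -/
def IsHelly {κ : Type*} (K : SimpleGraph κ) : Prop :=
  ∀ S : Finset (κ × ℕ), (∀ p ∈ S, ∀ q ∈ S, K.dist p.1 q.1 ≤ p.2 + q.2) →
    ∃ z, ∀ p ∈ S, K.dist p.1 z ≤ p.2

/-- `f` embeds `K` isometrically in `G`. -/
def Isometric {κ V : Type*} (K : SimpleGraph κ) (G : SimpleGraph V) (f : κ → V) : Prop :=
  ∀ a b, G.dist (f a) (f b) = K.dist a b

variable {V : Type*}

/-- the cop follows the robber -/
theorem guard_end (G : SimpleGraph V) (hG : G.Connected) {κ : Type*} [Finite κ]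
    (K : SimpleGraph κ) (hK : K.Connected) (hH : IsHelly K) (f : κ → V) (hf : Isometric K G f)
    (h : ℕ) : ∀ (x : V) (y : κ), (∀ z, G.dist x (f z) ≤ h → K.dist y z ≤ h) →
      Play G (fun (d : Unit → V) x => (∃ z, f z = x) → d () = x) h (fun _ => f y) x := by
  classical
  have := Fintype.ofFinite κ
  induction h with
  | zero =>
    rintro x y hxy ⟨z, rfl⟩
    have h1 := hxy z (by simp)
    have h2 : y = z := (hK.dist_eq_zero_iff).1 (Nat.le_zero.1 h1)
    show f y = f z
    rw [h2]
  | succ h ih =>
    intro x y hxy x' hx'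
    set Z : Finset κ := Finset.univ.filter fun z => G.dist x' (f z) ≤ h with hZ
    obtain ⟨y', hy'⟩ := hH (insert (y, 1) (Z.image fun z => (z, h))) (by
      have hyz : ∀ z ∈ Z, K.dist y z ≤ h + 1 := by
        intro z hz
        have h1 := (Finset.mem_filter.1 hz).2
        refine hxy z ?_
        have := dist_step G hG hx' (f z)
        omega
      have hzz : ∀ z ∈ Z, ∀ w ∈ Z, K.dist z w ≤ h + h := by
        intro z hz w hw
        have h1 := (Finset.mem_filter.1 hz).2
        have h2 := (Finset.mem_filter.1 hw).2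
        rw [← hf]
        have := hG.dist_triangle (u := f z) (v := x') (w := f w)
        rw [SimpleGraph.dist_comm (u := f z) (v := x')] at this
        omega
      intro p hp q hq
      rcases Finset.mem_insert.1 hp with rfl | hp
      · rcases Finset.mem_insert.1 hq with rfl | hq
        · simp
        · obtain ⟨z, hz, rfl⟩ := Finset.mem_image.1 hq
          have := hyz z hz
          show K.dist y z ≤ 1 + h
          omega
      · obtain ⟨z, hz, rfl⟩ := Finset.mem_image.1 hp
        rcases Finset.mem_insert.1 hq with rfl | hq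
        · have := hyz z hz
          show K.dist z y ≤ h + 1
          rw [SimpleGraph.dist_comm]
          exact this
        · obtain ⟨w, hw, rfl⟩ := Finset.mem_image.1 hq
          exact hzz z hz w hw)
    have h1 : K.dist y y' ≤ 1 := hy' (y, 1) (Finset.mem_insert_self _ _)
    have hst : Step G (f y) (f y') := by
      have h2 : G.dist (f y) (f y') ≤ 1 := by
        rw [hf]
        exact h1
      rcases Nat.lt_or_ge (G.dist (f y) (f y')) 1 with h5 | h5
      · left
        exact (hG.dist_eq_zero_iff).1 (by omega)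
      · right
        exact SimpleGraph.dist_eq_one_iff_adj.1 (by omega)
    refine ⟨fun _ => f y', fun _ => hst, ih x' y' fun z hz => ?_⟩
    have h2 := hy' (z, h) (Finset.mem_insert_of_mem (Finset.mem_image.2
      ⟨z, Finset.mem_filter.2 ⟨Finset.mem_univ z, hz⟩, rfl⟩))
    rw [SimpleGraph.dist_comm]
    exact h2

/-- One cop clears an isometric Helly subgraph. -/
theorem guard (G : SimpleGraph V) (hG : G.Connected) {κ : Type*} [Finite κ]
    (K : SimpleGraph κ) (hK : K.Connected) (hH : IsHelly K) (f : κ → V) (hf : Isometric K G f)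
    (o : V) : ∃ M : ℕ, ∀ h, M ≤ h → ∀ x,
      Play G (fun (d : Unit → V) x => (∃ z, f z = x) → d () = x) h (fun _ => o) x := by
  obtain ⟨y0⟩ := hK.nonempty
  obtain ⟨L, hL⟩ : ∃ L, ∀ z, K.dist y0 z ≤ L := by
    obtain ⟨L, hL⟩ := (Set.finite_range fun z => K.dist y0 z).bddAbove
    exact ⟨L, fun z => hL ⟨z, rfl⟩⟩
  obtain ⟨w⟩ := hG.preconnected o (f y0)
  generalize hv : f y0 = v at w
  induction w with
  | nil =>
    subst hv
    exact ⟨L, fun h hh x => guard_end G hG K hK hH f hf h x y0 fun z _ => (hL z).trans hh⟩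
  | @cons o o' v hadj _ ih =>
    obtain ⟨M, hM⟩ := ih hv
    refine ⟨M + 1, fun h hh x => ?_⟩
    obtain ⟨t, rfl⟩ : ∃ t, h = t + 1 := ⟨h - 1, by omega⟩
    intro x' _
    exact ⟨fun _ => o', fun _ => Or.inr hadj, hM t (by omega) x'⟩

/-- `k` cops clear the union of `k` isometric Helly subgraphs. -/
theorem helly_clear [Fintype V] (G : SimpleGraph V) (hG : G.Connected) (k : ℕ)
    (κ : Fin k → Type) [∀ i, Finite (κ i)] (K : ∀ i, SimpleGraph (κ i))
    (hK : ∀ i, (K i).Connected) (hH : ∀ i, IsHelly (K i)) (f : ∀ i, κ i → V)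
    (hf : ∀ i, Isometric (K i) G (f i)) (W : Finset V)
    (hW : ∀ z ∈ W, ∃ i y, f i y = z) : Clears G k W := by
  intro o
  have hM : ∀ i : Fin k, ∃ M : ℕ, ∀ h, M ≤ h → ∀ x,
      Play G (fun (d : Unit → V) x => (∃ z, f i z = x) → d () = x) h (fun _ => o) x :=
    fun i => guard G hG (K i) (hK i) (hH i) (f i) (hf i) o
  choose M hM using hM
  refine ⟨Finset.univ.sup M, fun m hm x => ?_⟩
  refine play_mono G _ _ ?_ m _ x (play_all G (fun (i : Fin k) (y x : V) =>
    (∃ z, f i z = x) → y = x) m (fun _ => o) x
    (fun i => hM i m ((Finset.le_sup (f := M) (Finset.mem_univ i)).trans hm) x))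
  intro c x h1 hx
  obtain ⟨i, y, hy⟩ := hW x hx
  exact ⟨i, h1 i ⟨y, hy⟩⟩

/-! ### Trees -/

/-- an edge `u v`: the vertices which are not nearer to `v` can be reached from `u` without it -/
theorem side_reach {κ : Type*} (K : SimpleGraph κ) (hK : K.Connected) {u v : κ} (n : ℕ) :
    ∀ w, K.dist u w = n → K.dist u w ≤ K.dist v w →
      (K.deleteEdges {s(u, v)}).Reachable u w := by
  induction n with
  | zero =>
    intro w hw _
    have : u = w := (hK.dist_eq_zero_iff).1 hw
    subst this
    exact SimpleGraph.Reachable.refl _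
  | succ n ih =>
    intro w hw hlt
    obtain ⟨p, hp⟩ := hK.exists_walk_length_eq_dist w u
    rw [SimpleGraph.dist_comm, hw] at hp
    cases p with
    | nil => simp at hp
    | @cons _ w' _ hadj p =>
      rw [SimpleGraph.Walk.length_cons] at hp
      have h1 := SimpleGraph.dist_le p
      rw [SimpleGraph.dist_comm] at h1
      have h2 : K.dist w' w = 1 := SimpleGraph.dist_eq_one_iff_adj.2 hadj.symm
      have h3 := hK.dist_triangle (u := u) (v := w') (w := w)
      have h4 := hK.dist_triangle (u := v) (v := w') (w := w)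
      have h5 := ih w' (by omega) (by omega)
      refine h5.trans (SimpleGraph.Adj.reachable ?_)
      rw [SimpleGraph.deleteEdges_adj]
      refine ⟨hadj.symm, fun h => ?_⟩
      rw [Set.mem_singleton_iff, Sym2.eq_iff] at h
      rcases h with ⟨_, h7⟩ | ⟨_, h7⟩
      · rw [h7, SimpleGraph.dist_self] at hlt
        rw [h7] at hw
        omega
      · rw [h7, SimpleGraph.dist_self] at hw
        omega

/-- walks in a tree from one side of an edge to the other -/
theorem cross {κ : Type*} (K : SimpleGraph κ) (hK : K.Connected) (hA : K.IsAcyclic) {u v : κ}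
    (huv : K.Adj u v) {a b : κ} (p : K.Walk a b) :
    K.dist u a < K.dist v a → K.dist v b ≤ K.dist u b →
      K.dist a v + K.dist v b ≤ p.length := by
  induction p with
  | nil =>
    intro h1 h2
    omega
  | @cons a c b hadj p ih =>
    intro h1 h2
    rw [SimpleGraph.Walk.length_cons]
    have h3 : K.dist a c = 1 := SimpleGraph.dist_eq_one_iff_adj.2 hadj
    by_cases hc : K.dist u c < K.dist v c
    · have h4 := ih hc h2
      have h5 := hK.dist_triangle (u := a) (v := c) (w := v)
      omega
    · have hb : K.IsBridge s(u, v) :=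
        SimpleGraph.isAcyclic_iff_forall_adj_isBridge.1 hA huv
      have hnr : ¬ (K.deleteEdges {s(u, v)}).Reachable u v := SimpleGraph.isBridge_iff.1 hb
      have hra := side_reach K hK _ a rfl h1.le
      have hrc := side_reach K hK _ c rfl (not_lt.1 hc)
      rw [Sym2.eq_swap] at hrc
      by_cases he : s(a, c) = s(u, v)
      · rw [Sym2.eq_iff] at he
        rcases he with ⟨rfl, rfl⟩ | ⟨rfl, rfl⟩
        · have := SimpleGraph.dist_le p
          omega
        · simp at h1
      · exfalso
        apply hnr
        refine hra.trans (SimpleGraph.Reachable.trans (SimpleGraph.Adj.reachable ?_) hrc.symm)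
        rw [SimpleGraph.deleteEdges_adj]
        exact ⟨hadj, he⟩

/-- The balls of a tree have the Helly property. -/
theorem tree_helly {κ : Type*} (K : SimpleGraph κ) (hK : K.Connected) (hA : K.IsAcyclic) :
    IsHelly K := by
  classical
  intro S hS
  obtain ⟨o⟩ := hK.nonempty
  -- minimise the excess
  have key : ∀ e : ℕ, ∀ v, (∀ p ∈ S, K.dist p.1 v ≤ p.2 + e) → ∃ z, ∀ p ∈ S, K.dist p.1 z ≤ p.2 := by
    intro e
    induction e with
    | zero => exact fun v hv => ⟨v, hv⟩
    | succ e ih =>
      intro v hv
      by_cases hex : ∃ p ∈ S, K.dist p.1 v = p.2 + (e + 1)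
      · obtain ⟨p, hp, hpv⟩ := hex
        obtain ⟨w, hw⟩ := hK.exists_walk_length_eq_dist v p.1
        rw [SimpleGraph.dist_comm, hpv] at hw
        cases w with
        | nil =>
          rw [SimpleGraph.Walk.length_nil] at hw
          omega
        | @cons _ u _ hadj w =>
          rw [SimpleGraph.Walk.length_cons] at hw
          have h1 := SimpleGraph.dist_le w
          refine ih u fun q hq => ?_
          have h2 := hv q hq
          rcases Nat.lt_or_ge (K.dist u q.1) (K.dist v q.1) with h3 | h3
          · rw [SimpleGraph.dist_comm (u := q.1)] at h2 ⊢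
            omega
          · obtain ⟨w', hw'⟩ := hK.exists_walk_length_eq_dist p.1 q.1
            have h4 := cross K hK hA hadj.symm w' (by
              rw [SimpleGraph.dist_comm (u := v), hpv]
              omega) h3
            rw [hw', hpv] at h4
            have h5 := hS p hp q hq
            have h6 := hK.dist_triangle (u := u) (v := v) (w := q.1)
            have h7 : K.dist u v = 1 := SimpleGraph.dist_eq_one_iff_adj.2 hadj.symm
            rw [SimpleGraph.dist_comm (u := q.1)]
            omega
      · push Not at hex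
        refine ih v fun q hq => ?_
        have h1 := hv q hq
        have h2 := hex q hq
        omega
  refine key (∑ p ∈ S, K.dist p.1 o) o fun p hp => ?_
  have := Finset.single_le_sum (f := fun p : κ × ℕ => K.dist p.1 o) (fun _ _ => Nat.zero_le _) hp
  show K.dist p.1 o ≤ _
  have h2 : K.dist p.1 o ≤ ∑ p ∈ S, K.dist p.1 o := this
  omega

/-- Let `G` be a connected graph on `n` vertices.
(1) One cop can clear an isometric Helly subgraph: if `k` connected graphs whose balls have the
Helly property are isometrically embedded in `G` and `X` contains all the vertices which are in none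
of their images, then `c(G) ≤ k + 81 √|X| (log n + 1)`.
(2) Trees have this property; so `c(G) ≤ k + 81 √|X| (log n + 1)` if all the vertices outside `X` are
on one of `k` isometric subtrees.
(3) Meyniel's bound: if all but at most `n / (log n + 1)²` vertices are in the images of at most
`C √n` connected Helly graphs which are isometrically embedded in `G`, then
`c(G) ≤ (C + 81) √n`. -/
theorem result {V : Type*} [Fintype V] (G : SimpleGraph V) (hG : G.Connected) :
    (∀ (k : ℕ) (κ : Fin k → Type) [∀ i, Finite (κ i)] (K : ∀ i, SimpleGraph (κ i))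
      (f : ∀ i, κ i → V) (X : Finset V), (∀ i, (K i).Connected) → (∀ i, IsHelly (K i)) →
      (∀ i, Isometric (K i) G (f i)) → (∀ z, z ∉ X → ∃ i y, f i y = z) →
      (copNumber G : ℝ) ≤ k + 81 * √(X.card : ℝ) * (Real.log (Fintype.card V) + 1)) ∧
    (∀ {κ : Type} (K : SimpleGraph κ), K.IsTree → IsHelly K) ∧
    (∀ (k : ℕ) (κ : Fin k → Type) [∀ i, Finite (κ i)] (K : ∀ i, SimpleGraph (κ i))
      (f : ∀ i, κ i → V) (X : Finset V), (∀ i, (K i).IsTree) →
      (∀ i, Isometric (K i) G (f i)) → (∀ z, z ∉ X → ∃ i y, f i y = z) →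
      (copNumber G : ℝ) ≤ k + 81 * √(X.card : ℝ) * (Real.log (Fintype.card V) + 1)) ∧
    (∀ (C : ℝ) (k : ℕ) (κ : Fin k → Type) [∀ i, Finite (κ i)] (K : ∀ i, SimpleGraph (κ i))
      (f : ∀ i, κ i → V) (X : Finset V), (∀ i, (K i).Connected) → (∀ i, IsHelly (K i)) →
      (∀ i, Isometric (K i) G (f i)) → (∀ z, z ∉ X → ∃ i y, f i y = z) →
      (k : ℝ) ≤ C * √(Fintype.card V : ℝ) →
      (X.card : ℝ) ≤ Fintype.card V / (Real.log (Fintype.card V) + 1) ^ 2 →
      (copNumber G : ℝ) ≤ (C + 81) * √(Fintype.card V : ℝ)) := by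
  classical
  have main : ∀ (k : ℕ) (κ : Fin k → Type) [∀ i, Finite (κ i)] (K : ∀ i, SimpleGraph (κ i))
      (f : ∀ i, κ i → V) (X : Finset V), (∀ i, (K i).Connected) → (∀ i, IsHelly (K i)) →
      (∀ i, Isometric (K i) G (f i)) → (∀ z, z ∉ X → ∃ i y, f i y = z) →
      (copNumber G : ℝ) ≤ k + 81 * √(X.card : ℝ) * (Real.log (Fintype.card V) + 1) := by
    intro k κ _ K f X hK hH hf hX
    have := clear_bound G hG k Xᶜ (helly_clear G hG k κ K hK hH f hf Xᶜ
      (fun z hz => hX z (Finset.mem_compl.1 hz)))
    rwa [compl_compl] at this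
  refine ⟨fun k κ _ K f X => main k κ K f X, fun {κ} K hK => tree_helly K hK.1 hK.2,
    fun k κ _ K f X hK hf hX => main k κ K f X (fun i => (hK i).1)
      (fun i => tree_helly (K i) (hK i).1 (hK i).2) hf hX, ?_⟩
  intro C k κ _ K f X hK hH hf hX hk hXc
  have h1 := main k κ K f X hK hH hf hX
  have hV : Nonempty V := hG.nonempty
  have hn1 : (1 : ℝ) ≤ Fintype.card V := by exact_mod_cast Fintype.card_pos
  have hlog0 : 0 ≤ Real.log (Fintype.card V : ℝ) := Real.log_nonneg hn1
  set n : ℝ := (Fintype.card V : ℝ) with hndef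
  have h2 : √(X.card : ℝ) * (Real.log n + 1) ≤ √n := by
    apply Real.le_sqrt_of_sq_le
    rw [mul_pow, Real.sq_sqrt (Nat.cast_nonneg _)]
    rw [le_div_iff₀ (by positivity)] at hXc
    exact hXc
  nlinarith

end Pool.Agent.Results.MP_964892_co.IsometricHelly
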