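import Pool.Agent.TH832.Mey.Growth

/-!
# Meyniel's bound for graphs with few modules

If the vertices of a connected graph are partitioned into at least two modules, the cop number
differs from that of the quotient by at most one: when a cop is in the module of the robber, the
robber cannot leave his module, and one more cop can be brought to a neighbouring module.
-/

set_option autoImplicit false
open N6ef48c04
open Pool.Agent.H251R2.Cops (CatchI catchI_mono' copNumber_le)
open Pool.Agent.H594R2.Mey2 (graph_bound)
open Pool.Agent.TH832.Mey (W W_caught W_step win_of_le step_symm cfg)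

namespace Pool.Agent.Results.MP_964892_co.ModularPartitions

/-- The fibres of `f : V → Q` are modules of `G` with quotient graph `H`: vertices in different
fibres are adjacent exactly if the fibres are adjacent in `H`. -/
def IsModular {V Q : Type*} (G : SimpleGraph V) (H : SimpleGraph Q) (f : V → Q) : Prop :=
  Function.Surjective f ∧ ∀ u v, f u ≠ f v → (G.Adj u v ↔ H.Adj (f u) (f v))

variable {V Q : Type*} {G : SimpleGraph V} {H : SimpleGraph Q} {f : V → Q}

theorem IsModular.step (hf : IsModular G H f) {u v : V} (h : Step G u v) :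
    Step H (f u) (f v) := by
  rcases h with rfl | h
  · exact Or.inl rfl
  · by_cases h1 : f u = f v
    · exact Or.inl h1
    · exact Or.inr ((hf.2 u v h1).1 h)

theorem IsModular.adj (hf : IsModular G H f) {u v : V} (h : H.Adj (f u) (f v)) : G.Adj u v :=
  (hf.2 u v h.ne).2 h

theorem IsModular.connected (hf : IsModular G H f) (hG : G.Connected) : H.Connected := by
  obtain ⟨v0⟩ := hG.nonempty
  have : Nonempty Q := ⟨f v0⟩
  refine SimpleGraph.Connected.mk fun p q => ?_
  obtain ⟨u, rfl⟩ := hf.1 p
  obtain ⟨v, rfl⟩ := hf.1 q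
  obtain ⟨w⟩ := hG.preconnected u v
  induction w with
  | nil => exact SimpleGraph.Reachable.refl _
  | cons hadj _ ih =>
    rcases hf.step (Or.inr hadj) with h | h
    · rw [h]
      exact ih
    · exact (SimpleGraph.Adj.reachable h).trans ih

/-- a cop is in the module of the robber, who has to stay there, and another cop walks to a
neighbouring module -/
theorem confined [Finite V] (hf : IsModular G H f) {κ : Type*} (c : κ → V) (i : κ) {t : V}
    (g : V) (w : G.Walk g t) : ∀ r : V, f (c i) = f r → H.Adj (f t) (f r) →
      W G (cfg g c) r := by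
  classical
  induction w with
  | @nil t =>
    intro r _ h2
    refine W_step G _ (cfg r c) _ ?_ (Or.inl ⟨none, rfl⟩)
    rintro (_ | l)
    · exact Or.inr (hf.adj h2)
    · exact Or.inl rfl
  | @cons g g' t hadj w ih =>
    intro r h1 h2
    refine W_step G _ (cfg g' c) _ ?_ (Or.inr fun r' hr' => ?_)
    · rintro (_ | l)
      · exact Or.inr hadj
      · exact Or.inl rfl
    · rcases hf.step hr' with h3 | h3
      · exact ih r' (h1.trans h3) (h3 ▸ h2)
      · refine W_step G _ (cfg g' (fun l => if f (c l) = f r then r' else c l)) _ ?_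
          (Or.inl ⟨some i, if_pos h1⟩)
        rintro (_ | l)
        · exact Or.inl rfl
        · show Step G (c l) (if f (c l) = f r then r' else c l)
          by_cases hl : f (c l) = f r
          · rw [if_pos hl]
            refine Or.inr (hf.adj ?_)
            rw [hl]
            exact h3
          · rw [if_neg hl]
            exact Or.inl rfl

theorem confined' [Finite V] (hf : IsModular G H f) (hG : G.Connected) (hQ : Nontrivial Q)
    {κ : Type*} (c : κ → V) (i : κ) (g r : V) (h : f (c i) = f r) : W G (cfg g c) r := by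
  have hH := hf.connected hG
  obtain ⟨q, hq⟩ := hH.preconnected.exists_adj_of_nontrivial (f r)
  obtain ⟨t, rfl⟩ := hf.1 q
  obtain ⟨w⟩ := hG.preconnected g t
  exact confined hf c i g w r h hq.symm

/-- the game on the quotient -/
theorem lift_game [Finite V] (hf : IsModular G H f) (hG : G.Connected) (hQ : Nontrivial Q)
    {κ : Type*} (g : V) (m : ℕ) : ∀ (c : κ → V) (r : V), CatchI H m (f ∘ c) (f r) →
      W G (cfg g c) r := by
  classical
  induction m with
  | zero =>
    rintro c r ⟨i, hi⟩
    exact confined' hf hG hQ c i g r hi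
  | succ m ih =>
    rintro c r (⟨i, hi⟩ | ⟨c', hc', h⟩)
    · exact confined' hf hG hQ c i g r hi
    · have hl : ∀ l, ∃ v, f v = c' l ∧ Step G (c l) v := by
        intro l
        rcases hc' l with h1 | h1
        · exact ⟨c l, h1, Or.inl rfl⟩
        · obtain ⟨v, hv⟩ := hf.1 (c' l)
          rw [← hv] at h1
          exact ⟨v, hv, Or.inr (hf.adj h1)⟩
      choose d hd1 hd2 using hl
      have hfd : f ∘ d = c' := funext hd1
      refine W_step G _ (cfg g d) _ ?_ (Or.inr fun r' hr' => ?_)
      · rintro (_ | l)
        · exact Or.inl rfl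
        · exact hd2 l
      · rcases h with ⟨i, hi⟩ | h
        · rcases hf.step hr' with h3 | h3
          · exact confined' hf hG hQ d i g r' (by rw [hd1, hi, h3])
          · refine W_step G _ (cfg g (fun l => if f (d l) = f r then r' else d l)) _ ?_
              (Or.inl ⟨some i, if_pos ((hd1 i).trans hi)⟩)
            rintro (_ | l)
            · exact Or.inl rfl
            · show Step G (d l) (if f (d l) = f r then r' else d l)
              by_cases hl : f (d l) = f r
              · rw [if_pos hl]
                refine Or.inr (hf.adj ?_)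
                rw [hl]
                exact h3
              · rw [if_neg hl]
                exact Or.inl rfl
        · refine ih d r' ?_
          rw [hfd]
          exact h _ (hf.step hr')

theorem upper [Finite V] (hf : IsModular G H f) (hG : G.Connected) (hQ : Nontrivial Q) :
    copNumber G ≤ copNumber H + 1 := by
  have hfin : Finite Q := Finite.of_surjective f hf.1
  have hH := hf.connected hG
  have : Nonempty Q := hH.nonempty
  obtain ⟨g⟩ := hG.nonempty
  obtain ⟨cK, hK⟩ := win_of_le H (copNumber H) le_rfl
  choose c hc using fun i => hf.1 (cK i)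
  have h1 := copNumber_le G (cfg g c) (fun r => by
    obtain ⟨m, hm⟩ := hK (f r)
    refine lift_game hf hG hQ g m c r ?_
    have : f ∘ c = cK := funext hc
    rw [this]
    exact hm)
  simpa using h1

/-- the quotient is a retract -/
theorem lower [Finite V] (hf : IsModular G H f) (hG : G.Connected) :
    copNumber H ≤ copNumber G := by
  have hfin : Finite Q := Finite.of_surjective f hf.1
  have : Nonempty V := hG.nonempty
  obtain ⟨cK, hK⟩ := win_of_le G (copNumber G) le_rfl
  choose s hs using hf.1
  have key : ∀ (m : ℕ) (c : Fin (copNumber G) → V) (q : Q), CatchI G m c (s q) →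
      CatchI H m (f ∘ c) q := by
    intro m
    induction m with
    | zero =>
      rintro c q ⟨i, hi⟩
      exact ⟨i, by rw [Function.comp_apply, hi, hs]⟩
    | succ m ih =>
      rintro c q (⟨i, hi⟩ | ⟨c', hc', h⟩)
      · exact Or.inl ⟨i, by rw [Function.comp_apply, hi, hs]⟩
      · refine Or.inr ⟨f ∘ c', fun i => hf.step (hc' i), ?_⟩
        rcases h with ⟨i, hi⟩ | h
        · exact Or.inl ⟨i, by rw [Function.comp_apply, hi, hs]⟩
        · refine Or.inr fun q' hq' => ih c' q' (h _ ?_)
          rcases hq' with rfl | hq'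
          · exact Or.inl rfl
          · refine Or.inr (hf.adj ?_)
            rw [hs, hs]
            exact hq'
  have h1 := copNumber_le H (f ∘ cK) (fun q => by
    obtain ⟨m, hm⟩ := hK (s q)
    exact ⟨m, key m cK q hm⟩)
  simpa using h1

/-- the lexicographic product `G[K]` -/
def lexProd {α β : Type*} (G : SimpleGraph α) (K : SimpleGraph β) : SimpleGraph (α × β) where
  Adj x y := G.Adj x.1 y.1 ∨ (x.1 = y.1 ∧ K.Adj x.2 y.2)
  symm := ⟨fun _ _ h => h.imp (fun h => h.symm) (fun h => ⟨h.1.symm, h.2.symm⟩)⟩
  loopless := ⟨fun _ h => h.elim (fun h => h.ne rfl) (fun h => h.2.ne rfl)⟩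

theorem lex_modular {α β : Type*} [Nonempty β] (G : SimpleGraph α) (K : SimpleGraph β) :
    IsModular (lexProd G K) G Prod.fst := by
  refine ⟨Prod.fst_surjective, fun u v huv => ⟨?_, Or.inl⟩⟩
  rintro (h | h)
  · exact h
  · exact absurd h.1 huv

theorem lex_connected {α β : Type*} [Nonempty β] [Nontrivial α] (G : SimpleGraph α)
    (K : SimpleGraph β) (hG : G.Connected) : (lexProd G K).Connected := by
  obtain ⟨b0⟩ := ‹Nonempty β›
  obtain ⟨a0⟩ := hG.nonempty
  have : Nonempty (α × β) := ⟨(a0, b0)⟩
  have key : ∀ {a a' : α} (_ : G.Walk a a'), ∀ b b', a ≠ a' →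
      (lexProd G K).Reachable (a, b) (a', b') := by
    intro a a' w
    induction w with
    | nil => exact fun b b' h => absurd rfl h
    | @cons a c a' hadj w ih =>
      intro b b' _
      by_cases hc : c = a'
      · subst hc
        exact SimpleGraph.Adj.reachable (Or.inl hadj)
      · exact (SimpleGraph.Adj.reachable (show (lexProd G K).Adj (a, b) (c, b) from
          Or.inl hadj)).trans (ih b b' hc)
  refine SimpleGraph.Connected.mk ?_
  rintro ⟨a, b⟩ ⟨a', b'⟩
  by_cases h : a = a'
  · subst h
    obtain ⟨c, hc⟩ := hG.preconnected.exists_adj_of_nontrivial a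
    exact (SimpleGraph.Adj.reachable (show (lexProd G K).Adj (a, b) (c, b) from Or.inl hc)).trans
      (SimpleGraph.Adj.reachable (show (lexProd G K).Adj (c, b) (a, b') from Or.inl hc.symm))
  · obtain ⟨w⟩ := hG.preconnected a a'
    exact key w b b' h

/-- Let the vertices of the connected graph `G` with `n` vertices be partitioned into `m ≥ 2`
modules, and let `H` be the quotient graph.
(1) `c(H) ≤ c(G) ≤ c(H) + 1`.
(2) `c(G) ≤ 81 √m (log m + 1) + 1`.
(3) Meyniel's bound `c(G) ≤ 82 √n` holds if `m (log m + 1)² ≤ n`.
(4) For a connected graph `G` with `n ≥ 2` vertices and any graph `K` with `k ≥ 1` vertices the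
lexicographic product `G[K]` has cop number at most `81 √n (log n + 1) + 1`, and at most
`82 √(n k)` if `(log n + 1)² ≤ k`. -/
theorem result :
    (∀ {V Q : Type} [Fintype V] [Fintype Q] (G : SimpleGraph V) (H : SimpleGraph Q) (f : V → Q),
      G.Connected → Nontrivial Q → IsModular G H f →
      (copNumber H ≤ copNumber G ∧ copNumber G ≤ copNumber H + 1) ∧
      (copNumber G : ℝ) ≤ 81 * √(Fintype.card Q : ℝ) * (Real.log (Fintype.card Q) + 1) + 1 ∧
      ((Fintype.card Q : ℝ) * (Real.log (Fintype.card Q) + 1) ^ 2 ≤ Fintype.card V →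
        (copNumber G : ℝ) ≤ 82 * √(Fintype.card V : ℝ))) ∧
    (∀ {α β : Type} [Fintype α] [Fintype β] [Nonempty β] [Nontrivial α] (G : SimpleGraph α)
      (K : SimpleGraph β), G.Connected →
      (copNumber (lexProd G K) : ℝ) ≤
        81 * √(Fintype.card α : ℝ) * (Real.log (Fintype.card α) + 1) + 1 ∧
      ((Real.log (Fintype.card α) + 1) ^ 2 ≤ Fintype.card β →
        (copNumber (lexProd G K) : ℝ) ≤ 82 * √(Fintype.card (α × β) : ℝ))) := by
  have main : ∀ {V Q : Type} [Fintype V] [Fintype Q] (G : SimpleGraph V) (H : SimpleGraph Q)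
      (f : V → Q), G.Connected → Nontrivial Q → IsModular G H f →
      (copNumber H ≤ copNumber G ∧ copNumber G ≤ copNumber H + 1) ∧
      (copNumber G : ℝ) ≤ 81 * √(Fintype.card Q : ℝ) * (Real.log (Fintype.card Q) + 1) + 1 ∧
      ((Fintype.card Q : ℝ) * (Real.log (Fintype.card Q) + 1) ^ 2 ≤ Fintype.card V →
        (copNumber G : ℝ) ≤ 82 * √(Fintype.card V : ℝ)) := by
    intro V Q _ _ G H f hG hQ hf
    have h1 := upper hf hG hQ
    have h2 : (copNumber G : ℝ) ≤
        81 * √(Fintype.card Q : ℝ) * (Real.log (Fintype.card Q) + 1) + 1 := by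
      have h3 : (copNumber G : ℝ) ≤ copNumber H + 1 := by exact_mod_cast h1
      have h4 := graph_bound H (hf.connected hG)
      linarith
    refine ⟨⟨lower hf hG, h1⟩, h2, fun h => ?_⟩
    have hV : Nonempty V := hG.nonempty
    have hn1 : (1 : ℝ) ≤ Fintype.card V := by exact_mod_cast Fintype.card_pos
    have hs1 : 1 ≤ √(Fintype.card V : ℝ) := Real.one_le_sqrt.2 hn1
    have h5 : √(Fintype.card Q : ℝ) * (Real.log (Fintype.card Q) + 1) ≤
        √(Fintype.card V : ℝ) := by
      apply Real.le_sqrt_of_sq_le
      rw [mul_pow, Real.sq_sqrt (Nat.cast_nonneg _)]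
      exact h
    linarith
  refine ⟨fun G H f => main G H f, ?_⟩
  intro α β _ _ _ _ G K hG
  obtain ⟨_, h1, h2⟩ := main (lexProd G K) G Prod.fst (lex_connected G K hG) inferInstance
    (lex_modular G K)
  refine ⟨h1, fun h => h2 ?_⟩
  rw [Fintype.card_prod, Nat.cast_mul]
  exact mul_le_mul_of_nonneg_left h (Nat.cast_nonneg _)

end Pool.Agent.Results.MP_964892_co.ModularPartitions
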