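import Pool.Agent.TH832.Mey.Growth

/-!
# Meyniel's bound for Cartesian and strong products

The cop number of a product is at most the sum of the cop numbers of the factors. Phases of the
strategy on the Cartesian product: (1) `c(G)` cops are brought, one by one, to the same
`H`-coordinate as the robber; (2) the other `c(H)` cops are brought to the same `G`-coordinate as
the robber, while every move of the robber in `G` makes progress in the game on `G`; (3) now every
move of the robber makes progress either in the game on `G` or in the game on `H`.
With the bound `81 √n (log n + 1)` of the starting files this gives Meyniel's bound for all products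
whose factors are not too unbalanced.
-/

set_option autoImplicit false
set_option linter.unusedSectionVars false
open N6ef48c04
open Pool.Agent.H251R2.Cops (CatchI catchI_mono' copNumber_le)
open Pool.Agent.H594R2.Mey2 (Rch ofGraph rch_large graph_bound)
open Pool.Agent.TH832.Mey (W W_caught W_step win_of_le step_symm)

namespace Pool.Agent.Results.MP_964892_co.Products

section any

variable {V : Type*}

/-- on a connected graph `c(G)` cops win from all starting positions -/
theorem win_any [Finite V] (G : SimpleGraph V) (hG : G.Connected) (c : Fin (copNumber G) → V)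
    (r : V) : ∃ m, CatchI G m c r := by
  have : Nonempty V := hG.nonempty
  obtain ⟨cK, hK⟩ := win_of_le G (copNumber G) le_rfl
  obtain ⟨D, hD⟩ := rch_large (ofGraph G) (fun x z => by
    obtain ⟨w⟩ := hG.preconnected x z
    induction w with
    | nil => exact Relation.ReflTransGen.refl
    | cons hadj _ ih => exact Relation.ReflTransGen.head (Or.inr hadj) ih)
  have key : ∀ (h : ℕ) (c : Fin (copNumber G) → V) (r : V),
      (∀ i, Rch (ofGraph G) h (c i) (cK i)) → W G c r := by
    intro h
    induction h with
    | zero =>
      intro c r hc
      have : c = cK := funext fun i => hc i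
      subst this
      exact hK r
    | succ h ih =>
      intro c r hc
      choose c' hc' hr using hc
      exact W_step G _ c' r hc' (Or.inr fun y _ => ih c' y hr)
  exact key D c r fun i => hD D le_rfl _ _

/-- a uniform number of rounds -/
theorem win_unif [Finite V] (G : SimpleGraph V) {ι : Type*} (c : ι → V)
    (h : ∀ r, ∃ m, CatchI G m c r) : ∃ m, ∀ r, CatchI G m c r := by
  choose m hm using h
  obtain ⟨M, hM⟩ := (Set.finite_range m).bddAbove
  exact ⟨M, fun r => catchI_mono' G (hM ⟨r, rfl⟩) (hm r)⟩

/-- moving closer -/
theorem closer (G : SimpleGraph V) (hG : G.Connected) (u g : V) :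
    ∃ u', Step G u u' ∧ G.dist u' g ≤ G.dist u g - 1 := by
  obtain ⟨w, hw⟩ := hG.exists_walk_length_eq_dist u g
  cases w with
  | nil => exact ⟨_, Or.inl rfl, by simp⟩
  | @cons _ v _ hadj p =>
    refine ⟨v, Or.inr hadj, ?_⟩
    rw [SimpleGraph.Walk.length_cons] at hw
    have := SimpleGraph.dist_le p
    omega

theorem follow (G : SimpleGraph V) (hG : G.Connected) (u g g' : V) (hg : Step G g g') :
    ∃ u', Step G u u' ∧ G.dist u' g' ≤ G.dist u g := by
  obtain ⟨u', h1, h2⟩ := closer G hG u g'
  refine ⟨u', h1, ?_⟩
  have h3 := Pool.Agent.TH832.Mey.dist_step hG (step_symm hg) u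
  omega

end any

variable {α β : Type*} [Finite α] [Finite β]

/-- Placing the cops one by one in the fibre of the robber. -/
theorem place (B : SimpleGraph (α × β)) (H : SimpleGraph β)
    (hS : ∀ x y, Step B x y → Step H x.2 y.2)
    (hM : ∀ g h h', Step H h h' → Step B (g, h) (g, h')) {ι : Type*} [Fintype ι] [DecidableEq ι]
    (a b : ℕ) (hcard : Fintype.card ι = a + b)
    (hH : ∀ (y : Fin b → β) (h : β), ∃ m, CatchI H m y h)
    (hfin : ∀ A : Finset ι, A.card = a → ∀ (c : ι → α × β) (g : α) (h : β),
      (∀ i ∈ A, (c i).2 = h) → ∀ r', Step B (g, h) r' → W B c r') (t : ℕ) :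
    ∀ A : Finset ι, A.card + t = a → ∀ (c : ι → α × β) (g : α) (h : β),
      (∀ i ∈ A, (c i).2 = h) → ∀ r', Step B (g, h) r' → W B c r' := by
  classical
  induction t with
  | zero => exact fun A hA => hfin A (by omega)
  | succ t ih =>
    intro A hA
    obtain ⟨e⟩ : Nonempty (Fin b ↪ {i // i ∉ A}) := by
      apply Function.Embedding.nonempty_of_card_le
      have h1 : Fintype.card {i // i ∉ A} = Fintype.card ι - A.card := by
        rw [Fintype.card_subtype_compl, Fintype.card_coe]
      rw [h1, Fintype.card_fin, hcard]
      omega
    have hout : ∀ (c' : ι → α × β) (r' : α × β) (j : Fin b), (c' (e j).1).2 = r'.2 →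
        (∀ i ∈ A, (c' i).2 = r'.2) → ∀ r'', Step B r' r'' → W B c' r'' := by
      rintro c' ⟨g', h'⟩ j hj hc r'' hr''
      refine ih (insert (e j).1 A) ?_ c' g' h' ?_ r'' hr''
      · rw [Finset.card_insert_of_notMem (e j).2]
        omega
      · intro i hi
        rcases Finset.mem_insert.1 hi with rfl | hi
        · exact hj
        · exact hc i hi
    have hin : ∀ (m : ℕ) (c : ι → α × β) (g : α) (h : β), (∀ i ∈ A, (c i).2 = h) →
        (∀ h', Step H h h' → CatchI H m (fun j => (c (e j).1).2) h') →
        ∀ r', Step B (g, h) r' → W B c r' := by
      intro m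
      induction m with
      | zero =>
        rintro c g h hc hm ⟨g', h'⟩ hr
        have hsh : Step H h h' := hS _ _ hr
        obtain ⟨j, hj⟩ := hm h' hsh
        refine W_step B c (fun i => if i ∈ A then ((c i).1, h') else c i) _ ?_
          (Or.inr (hout _ _ j ?_ ?_))
        · intro i
          by_cases hi : i ∈ A
          · simp only [if_pos hi]
            have h1 := hM (c i).1 h h' hsh
            rw [← hc i hi] at h1
            exact h1
          · simp only [if_neg hi]
            exact Or.inl rfl
        · simp only [if_neg (e j).2]
          exact hj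
        · intro i hi
          simp only [if_pos hi]
      | succ m ihm =>
        rintro c g h hc hm ⟨g', h'⟩ hr
        have hsh : Step H h h' := hS _ _ hr
        rcases hm h' hsh with ⟨j, hj⟩ | ⟨y', hy', halt⟩
        · refine W_step B c (fun i => if i ∈ A then ((c i).1, h') else c i) _ ?_
            (Or.inr (hout _ _ j ?_ ?_))
          · intro i
            by_cases hi : i ∈ A
            · simp only [if_pos hi]
              have h1 := hM (c i).1 h h' hsh
              rw [← hc i hi] at h1
              exact h1
            · simp only [if_neg hi]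
              exact Or.inl rfl
          · simp only [if_neg (e j).2]
            exact hj
          · intro i hi
            simp only [if_pos hi]
        · set c' : ι → α × β := fun i => if i ∈ A then ((c i).1, h') else
            if hj : ∃ j, (e j).1 = i then ((c i).1, y' hj.choose) else c i with hc'
          have hcA : ∀ i ∈ A, c' i = ((c i).1, h') := by
            intro i hi
            simp only [hc', if_pos hi]
          have hce : ∀ j, c' (e j).1 = ((c (e j).1).1, y' j) := by
            intro j
            have hex : ∃ k, (e k).1 = (e j).1 := ⟨j, rfl⟩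
            have h1 : hex.choose = j := e.injective (Subtype.ext hex.choose_spec)
            simp only [hc', if_neg (e j).2, dif_pos hex, h1]
          have hstep : ∀ i, Step B (c i) (c' i) := by
            intro i
            by_cases hi : i ∈ A
            · rw [hcA i hi]
              have h1 := hM (c i).1 h h' hsh
              rw [← hc i hi] at h1
              exact h1
            · by_cases hj : ∃ j, (e j).1 = i
              · obtain ⟨j, rfl⟩ := hj
                rw [hce j]
                exact hM _ _ _ (hy' j)
              · have : c' i = c i := by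
                  simp only [hc', if_neg hi, dif_neg hj]
                rw [this]
                exact Or.inl rfl
          refine W_step B c c' _ hstep (Or.inr ?_)
          rcases halt with ⟨j, hj⟩ | halt
          · refine hout c' (g', h') j ?_ fun i hi => by rw [hcA i hi]
            rw [hce j]
            exact hj
          · refine ihm c' g' h' (fun i hi => by rw [hcA i hi]) ?_
            intro h'' hh''
            have : (fun j => (c' (e j).1).2) = y' := by
              funext j
              rw [hce j]
            rw [this]
            exact halt h'' hh''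
    intro c g h hc r' hr
    obtain ⟨m, hm⟩ := win_unif H _ (hH (fun j => (c (e j).1).2))
    exact hin m c g h hc (fun h' _ => hm h') r' hr

/-- the strong product -/
def strongProd (G : SimpleGraph α) (H : SimpleGraph β) : SimpleGraph (α × β) where
  Adj x y := x ≠ y ∧ Step G x.1 y.1 ∧ Step H x.2 y.2
  symm := ⟨fun _ _ h => ⟨h.1.symm, step_symm h.2.1, step_symm h.2.2⟩⟩
  loopless := ⟨fun _ h => h.1 rfl⟩

theorem step_strong {G : SimpleGraph α} {H : SimpleGraph β} {x y : α × β}
    (h1 : Step G x.1 y.1) (h2 : Step H x.2 y.2) : Step (strongProd G H) x y := by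
  by_cases h : x = y
  · exact Or.inl h
  · exact Or.inr ⟨h, h1, h2⟩

theorem strong_step {G : SimpleGraph α} {H : SimpleGraph β} {x y : α × β}
    (h : Step (strongProd G H) x y) : Step G x.1 y.1 ∧ Step H x.2 y.2 := by
  rcases h with rfl | h
  · exact ⟨Or.inl rfl, Or.inl rfl⟩
  · exact ⟨h.2.1, h.2.2⟩

/-- the end of the game on a strong product -/
theorem strong_final (G : SimpleGraph α) (H : SimpleGraph β) {ι : Type*} [Fintype ι]
    [DecidableEq ι] (a : ℕ) (hG : ∀ (x : Fin a → α) (g : α), ∃ m, CatchI G m x g)
    (A : Finset ι) (hA : A.card = a) (c : ι → α × β) (g : α) (h : β)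
    (hc : ∀ i ∈ A, (c i).2 = h) (r' : α × β) (hr : Step (strongProd G H) (g, h) r') :
    W (strongProd G H) c r' := by
  classical
  obtain ⟨e⟩ : Nonempty (Fin a ≃ {i // i ∈ A}) := by
    rw [← Fintype.card_eq, Fintype.card_coe, Fintype.card_fin, hA]
  have hin : ∀ (m : ℕ) (c : ι → α × β) (g : α) (h : β), (∀ i ∈ A, (c i).2 = h) →
      (∀ g', Step G g g' → CatchI G m (fun j => (c (e j).1).1) g') →
      ∀ r', Step (strongProd G H) (g, h) r' → W (strongProd G H) c r' := by
    intro m
    induction m with
    | zero =>
      rintro c g h hc hm ⟨g', h'⟩ hr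
      obtain ⟨hg, hh⟩ := strong_step hr
      obtain ⟨j, hj⟩ := hm g' hg
      refine W_step _ c (fun i => if i ∈ A then ((c i).1, h') else c i) _ ?_
        (Or.inl ⟨(e j).1, ?_⟩)
      · intro i
        by_cases hi : i ∈ A
        · simp only [if_pos hi]
          refine step_strong (Or.inl rfl) ?_
          rw [hc i hi]
          exact hh
        · simp only [if_neg hi]
          exact Or.inl rfl
      · simp only [if_pos (e j).2]
        exact Prod.ext hj rfl
    | succ m ihm =>
      rintro c g h hc hm ⟨g', h'⟩ hr
      obtain ⟨hg, hh⟩ := strong_step hr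
      rcases hm g' hg with ⟨j, hj⟩ | ⟨x', hx', halt⟩
      · refine W_step _ c (fun i => if i ∈ A then ((c i).1, h') else c i) _ ?_
          (Or.inl ⟨(e j).1, ?_⟩)
        · intro i
          by_cases hi : i ∈ A
          · simp only [if_pos hi]
            refine step_strong (Or.inl rfl) ?_
            rw [hc i hi]
            exact hh
          · simp only [if_neg hi]
            exact Or.inl rfl
        · simp only [if_pos (e j).2]
          exact Prod.ext hj rfl
      · set c' : ι → α × β := fun i => if hi : i ∈ A then (x' (e.symm ⟨i, hi⟩), h') else c i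
          with hc'
        have hce : ∀ j, c' (e j).1 = (x' j, h') := by
          intro j
          simp only [hc', dif_pos (e j).2]
          simp
        have hcA : ∀ i ∈ A, (c' i).2 = h' := by
          intro i hi
          simp only [hc', dif_pos hi]
        have hstep : ∀ i, Step (strongProd G H) (c i) (c' i) := by
          intro i
          by_cases hi : i ∈ A
          · obtain ⟨j, hj⟩ := e.surjective ⟨i, hi⟩
            have hji : (e j).1 = i := by rw [hj]
            subst hji
            rw [hce j]
            refine step_strong (hx' j) ?_
            rw [hc _ hi]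
            exact hh
          · simp only [hc', dif_neg hi]
            exact Or.inl rfl
        refine W_step _ c c' _ hstep ?_
        rcases halt with ⟨j, hj⟩ | halt
        · left
          refine ⟨(e j).1, ?_⟩
          rw [hce j, hj]
        · right
          refine ihm c' g' h' hcA ?_
          intro g'' hg''
          have : (fun j => (c' (e j).1).1) = x' := by
            funext j
            rw [hce j]
          rw [this]
          exact halt g'' hg''
  obtain ⟨m, hm⟩ := win_unif G _ (hG (fun j => (c (e j).1).1))
  exact hin m c g h hc (fun g' _ => hm g') r' hr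

/-- `c(G ⊠ H) ≤ c(G) + c(H)` -/
theorem strong_add (G : SimpleGraph α) (H : SimpleGraph β) (hG : G.Connected)
    (hH : H.Connected) : copNumber (strongProd G H) ≤ copNumber G + copNumber H := by
  classical
  obtain ⟨g0⟩ := hG.nonempty
  obtain ⟨h0⟩ := hH.nonempty
  have h1 := copNumber_le (strongProd G H)
    (fun _ : Fin (copNumber G) ⊕ Fin (copNumber H) => (g0, h0)) (fun r =>
      place (strongProd G H) H (fun x y h => (strong_step h).2)
        (fun g h h' hh => step_strong (Or.inl rfl) hh) (copNumber G) (copNumber H)
        (by simp) (win_any H hH) (fun A hA c g h hc r' hr =>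
          strong_final G H (copNumber G) (win_any G hG) A hA c g h hc r' hr)
        (copNumber G) ∅ (by simp) _ r.1 r.2 (fun i hi => absurd hi (Finset.notMem_empty i)) r
        (Or.inl rfl))
  simpa using h1

/-! ### Cartesian products -/

theorem box_fst {G : SimpleGraph α} {H : SimpleGraph β} {g g' : α} (h : β) (hg : Step G g g') :
    Step (G.boxProd H) (g, h) (g', h) := by
  rcases hg with rfl | hg
  · exact Or.inl rfl
  · exact Or.inr (SimpleGraph.boxProd_adj.2 (Or.inl ⟨hg, rfl⟩))

theorem box_snd {G : SimpleGraph α} {H : SimpleGraph β} (g : α) {h h' : β} (hh : Step H h h') :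
    Step (G.boxProd H) (g, h) (g, h') := by
  rcases hh with rfl | hh
  · exact Or.inl rfl
  · exact Or.inr (SimpleGraph.boxProd_adj.2 (Or.inr ⟨hh, rfl⟩))

theorem step_box {G : SimpleGraph α} {H : SimpleGraph β} {g g' : α} {h h' : β}
    (hs : Step (G.boxProd H) (g, h) (g', h')) :
    (Step G g g' ∧ h' = h) ∨ (g' = g ∧ Step H h h') := by
  rcases hs with hs | hs
  · left
    obtain ⟨rfl, rfl⟩ := Prod.ext_iff.1 hs
    exact ⟨Or.inl rfl, rfl⟩
  · rcases SimpleGraph.boxProd_adj.1 hs with ⟨h1, h2⟩ | ⟨h1, h2⟩
    · exact Or.inl ⟨Or.inr h1, h2.symm⟩
    · exact Or.inr ⟨h2.symm, Or.inr h1⟩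

/-- The last phase: `a` cops in the fibre of the robber over `H` and `b` cops in his fibre over
`G`. -/
theorem box_last (G : SimpleGraph α) (H : SimpleGraph β) {ι : Type*} [DecidableEq ι]
    (A : Finset ι) (a b : ℕ) (e : Fin a ≃ {i // i ∈ A}) (f : Fin b ≃ {i // i ∉ A}) (mG : ℕ) :
    ∀ (mH : ℕ) (c : ι → α × β) (g : α) (h : β), (∀ i ∈ A, (c i).2 = h) →
      (∀ i, i ∉ A → (c i).1 = g) →
      (∀ g', Step G g g' → CatchI G mG (fun j => (c (e j).1).1) g') →
      (∀ h', Step H h h' → CatchI H mH (fun j => (c (f j).1).2) h') →
      ∀ r', Step (G.boxProd H) (g, h) r' → W (G.boxProd H) c r' := by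
  classical
  induction mG with
  | zero =>
    intro mH
    induction mH with
    | zero =>
      rintro c g h hA hB hG hH ⟨g', h'⟩ hr
      rcases step_box hr with ⟨hg, rfl⟩ | ⟨rfl, hh⟩
      · obtain ⟨j, hj⟩ := hG g' hg
        exact W_caught _ _ _ ⟨(e j).1, Prod.ext hj (hA _ (e j).2)⟩
      · obtain ⟨j, hj⟩ := hH h' hh
        exact W_caught _ _ _ ⟨(f j).1, Prod.ext (hB _ (f j).2) hj⟩
    | succ mH ihH =>
      rintro c g h hA hB hG hH ⟨g', h'⟩ hr
      rcases step_box hr with ⟨hg, rfl⟩ | ⟨rfl, hh⟩
      · obtain ⟨j, hj⟩ := hG g' hg
        exact W_caught _ _ _ ⟨(e j).1, Prod.ext hj (hA _ (e j).2)⟩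
      · rcases hH h' hh with ⟨j, hj⟩ | ⟨y', hy', halt⟩
        · exact W_caught _ _ _ ⟨(f j).1, Prod.ext (hB _ (f j).2) hj⟩
        · set c' : ι → α × β := fun i => if hi : i ∈ A then ((c i).1, h') else
            (g', y' (f.symm ⟨i, hi⟩)) with hc'
          have hcA : ∀ i (hi : i ∈ A), c' i = ((c i).1, h') := by
            intro i hi
            simp only [hc', dif_pos hi]
          have hcf : ∀ j, c' (f j).1 = (g', y' j) := by
            intro j
            simp only [hc', dif_neg (f j).2]
            simp
          have hcB : ∀ i, i ∉ A → (c' i).1 = g' := by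
            intro i hi
            simp only [hc', dif_neg hi]
          have hstep : ∀ i, Step (G.boxProd H) (c i) (c' i) := by
            intro i
            by_cases hi : i ∈ A
            · rw [hcA i hi]
              have h1 := box_snd (G := G) (c i).1 hh
              rw [← hA i hi] at h1
              exact h1
            · obtain ⟨j, hj⟩ := f.surjective ⟨i, hi⟩
              have hji : (f j).1 = i := by rw [hj]
              subst hji
              rw [hcf j]
              have h1 := box_snd (G := G) g' (hy' j)
              rw [← hB _ hi] at h1 ⊢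
              exact h1
          refine W_step _ c c' _ hstep ?_
          rcases halt with ⟨j, hj⟩ | halt
          · left
            refine ⟨(f j).1, ?_⟩
            rw [hcf j, hj]
          · right
            refine ihH c' g' h' (fun i hi => by rw [hcA i hi]) hcB ?_ ?_
            · intro g'' hg''
              have : (fun j => (c' (e j).1).1) = fun j => (c (e j).1).1 := by
                funext j
                rw [hcA _ (e j).2]
              rw [this]
              exact hG g'' hg''
            · intro h'' hh''
              have : (fun j => (c' (f j).1).2) = y' := by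
                funext j
                rw [hcf j]
              rw [this]
              exact halt h'' hh''
  | succ mG ihG =>
    have gmove : ∀ (mH : ℕ) (c : ι → α × β) (g : α) (h : β), (∀ i ∈ A, (c i).2 = h) →
        (∀ i, i ∉ A → (c i).1 = g) →
        (∀ h', Step H h h' → CatchI H mH (fun j => (c (f j).1).2) h') →
        ∀ g', Step G g g' → CatchI G (mG + 1) (fun j => (c (e j).1).1) g' →
        W (G.boxProd H) c (g', h) := by
      intro mH c g h hA hB hH g' hg hm
      rcases hm with ⟨j, hj⟩ | ⟨x', hx', halt⟩
      · exact W_caught _ _ _ ⟨(e j).1, Prod.ext hj (hA _ (e j).2)⟩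
      · set c' : ι → α × β := fun i => if hi : i ∈ A then (x' (e.symm ⟨i, hi⟩), h) else
          (g', (c i).2) with hc'
        have hce : ∀ j, c' (e j).1 = (x' j, h) := by
          intro j
          simp only [hc', dif_pos (e j).2]
          simp
        have hcA : ∀ i ∈ A, (c' i).2 = h := by
          intro i hi
          simp only [hc', dif_pos hi]
        have hcB : ∀ i, i ∉ A → c' i = (g', (c i).2) := by
          intro i hi
          simp only [hc', dif_neg hi]
        have hstep : ∀ i, Step (G.boxProd H) (c i) (c' i) := by
          intro i
          by_cases hi : i ∈ A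
          · obtain ⟨j, hj⟩ := e.surjective ⟨i, hi⟩
            have hji : (e j).1 = i := by rw [hj]
            subst hji
            rw [hce j]
            have h1 := box_fst (H := H) h (hx' j)
            have h2 : c (e j).1 = ((c (e j).1).1, h) := Prod.ext rfl (hA _ hi)
            rw [h2]
            exact h1
          · rw [hcB i hi]
            have h1 := box_fst (H := H) (c i).2 hg
            have h2 : c i = (g, (c i).2) := Prod.ext (hB i hi) rfl
            rw [h2]
            exact h1
        refine W_step _ c c' _ hstep ?_
        rcases halt with ⟨j, hj⟩ | halt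
        · left
          refine ⟨(e j).1, ?_⟩
          rw [hce j, hj]
        · right
          refine ihG mH c' g' h hcA (fun i hi => by rw [hcB i hi]) ?_ ?_
          · intro g'' hg''
            have : (fun j => (c' (e j).1).1) = x' := by
              funext j
              rw [hce j]
            rw [this]
            exact halt g'' hg''
          · intro h'' hh''
            have : (fun j => (c' (f j).1).2) = fun j => (c (f j).1).2 := by
              funext j
              rw [hcB _ (f j).2]
            rw [this]
            exact hH h'' hh''
    intro mH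
    induction mH with
    | zero =>
      rintro c g h hA hB hG hH ⟨g', h'⟩ hr
      rcases step_box hr with ⟨hg, rfl⟩ | ⟨rfl, hh⟩
      · exact gmove 0 c g _ hA hB hH g' hg (hG g' hg)
      · obtain ⟨j, hj⟩ := hH h' hh
        exact W_caught _ _ _ ⟨(f j).1, Prod.ext (hB _ (f j).2) hj⟩
    | succ mH ihH =>
      rintro c g h hA hB hG hH ⟨g', h'⟩ hr
      rcases step_box hr with ⟨hg, rfl⟩ | ⟨rfl, hh⟩
      · exact gmove (mH + 1) c g _ hA hB hH g' hg (hG g' hg)
      · rcases hH h' hh with ⟨j, hj⟩ | ⟨y', hy', halt⟩
        · exact W_caught _ _ _ ⟨(f j).1, Prod.ext (hB _ (f j).2) hj⟩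
        · set c' : ι → α × β := fun i => if hi : i ∈ A then ((c i).1, h') else
            (g', y' (f.symm ⟨i, hi⟩)) with hc'
          have hcA : ∀ i (hi : i ∈ A), c' i = ((c i).1, h') := by
            intro i hi
            simp only [hc', dif_pos hi]
          have hcf : ∀ j, c' (f j).1 = (g', y' j) := by
            intro j
            simp only [hc', dif_neg (f j).2]
            simp
          have hcB : ∀ i, i ∉ A → (c' i).1 = g' := by
            intro i hi
            simp only [hc', dif_neg hi]
          have hstep : ∀ i, Step (G.boxProd H) (c i) (c' i) := by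
            intro i
            by_cases hi : i ∈ A
            · rw [hcA i hi]
              have h1 := box_snd (G := G) (c i).1 hh
              rw [← hA i hi] at h1
              exact h1
            · obtain ⟨j, hj⟩ := f.surjective ⟨i, hi⟩
              have hji : (f j).1 = i := by rw [hj]
              subst hji
              rw [hcf j]
              have h1 := box_snd (G := G) g' (hy' j)
              rw [← hB _ hi] at h1 ⊢
              exact h1
          refine W_step _ c c' _ hstep ?_
          rcases halt with ⟨j, hj⟩ | halt
          · left
            refine ⟨(f j).1, ?_⟩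
            rw [hcf j, hj]
          · right
            refine ihH c' g' h' (fun i hi => by rw [hcA i hi]) hcB ?_ ?_
            · intro g'' hg''
              have : (fun j => (c' (e j).1).1) = fun j => (c (e j).1).1 := by
                funext j
                rw [hcA _ (e j).2]
              rw [this]
              exact hG g'' hg''
            · intro h'' hh''
              have : (fun j => (c' (f j).1).2) = y' := by
                funext j
                rw [hcf j]
              rw [this]
              exact halt h'' hh''

/-- The middle phase: the other cops get into the fibre of the robber over `G`. -/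
theorem box_mid (G : SimpleGraph α) (H : SimpleGraph β) (hGc : G.Connected) {ι : Type*}
    [Fintype ι] [DecidableEq ι] (A : Finset ι) (a b : ℕ) (e : Fin a ≃ {i // i ∈ A})
    (f : Fin b ≃ {i // i ∉ A}) (hH : ∀ (y : Fin b → β) (h : β), ∃ m, CatchI H m y h) (mG : ℕ) :
    ∀ (D : ℕ) (c : ι → α × β) (g : α) (h : β), (∀ i ∈ A, (c i).2 = h) →
      (∑ i ∈ Aᶜ, G.dist (c i).1 g) ≤ D →
      (∀ g', Step G g g' → CatchI G mG (fun j => (c (e j).1).1) g') →
      ∀ r', Step (G.boxProd H) (g, h) r' → W (G.boxProd H) c r' := by
  classical
  induction mG with
  | zero =>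
    intro D
    induction D with
    | zero =>
      intro c g h hA hD hG r' hr
      have hB : ∀ i, i ∉ A → (c i).1 = g := by
        intro i hi
        have h1 := Finset.sum_eq_zero_iff.1 (Nat.le_zero.1 hD) i (Finset.mem_compl.2 hi)
        exact (hGc.dist_eq_zero_iff).1 h1
      obtain ⟨mH, hmH⟩ := win_unif H _ (hH (fun j => (c (f j).1).2))
      exact box_last G H A a b e f 0 mH c g h hA hB hG (fun h' _ => hmH h') r' hr
    | succ D ihD =>
      rintro c g h hA hD hG ⟨g', h'⟩ hr
      rcases step_box hr with ⟨hg, rfl⟩ | ⟨rfl, hh⟩
      · obtain ⟨j, hj⟩ := hG g' hg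
        exact W_caught _ _ _ ⟨(e j).1, Prod.ext hj (hA _ (e j).2)⟩
      · choose u hu hud using fun i : ι => closer G hGc (c i).1 g'
        refine W_step _ c (fun i => if i ∈ A then ((c i).1, h') else (u i, (c i).2)) _ ?_
          (Or.inr (ihD _ g' h' ?_ ?_ ?_))
        · intro i
          by_cases hi : i ∈ A
          · simp only [if_pos hi]
            have h1 := box_snd (G := G) (c i).1 hh
            rw [← hA i hi] at h1
            exact h1
          · simp only [if_neg hi]
            exact box_fst (H := H) (c i).2 (hu i)
        · intro i hi
          simp only [if_pos hi]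
        · by_cases h0 : (∑ i ∈ Aᶜ, G.dist (c i).1 g') = 0
          · have h1 : (∑ i ∈ Aᶜ, G.dist (if i ∈ A then ((c i).1, h') else (u i, (c i).2)).1 g') ≤
                ∑ i ∈ Aᶜ, G.dist (c i).1 g' := by
              refine Finset.sum_le_sum fun i hi => ?_
              rw [if_neg (Finset.mem_compl.1 hi)]
              have := hud i
              show G.dist (u i) g' ≤ _
              omega
            omega
          · have h1 : (∑ i ∈ Aᶜ, G.dist (if i ∈ A then ((c i).1, h') else (u i, (c i).2)).1 g') <
                ∑ i ∈ Aᶜ, G.dist (c i).1 g' := by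
              obtain ⟨i0, hi0, hne⟩ := Finset.exists_ne_zero_of_sum_ne_zero h0
              refine Finset.sum_lt_sum (fun i hi => ?_) ⟨i0, hi0, ?_⟩
              · rw [if_neg (Finset.mem_compl.1 hi)]
                have := hud i
                show G.dist (u i) g' ≤ _
                omega
              · rw [if_neg (Finset.mem_compl.1 hi0)]
                have := hud i0
                show G.dist (u i0) g' < _
                omega
            omega
        · intro g'' hg''
          have : (fun j => ((if (e j).1 ∈ A then ((c (e j).1).1, h') else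
              (u (e j).1, (c (e j).1).2)) : α × β).1) = fun j => (c (e j).1).1 := by
            funext j
            rw [if_pos (e j).2]
          rw [this]
          exact hG g'' hg''
  | succ mG ihG =>
    intro D
    have gmove : ∀ (D : ℕ) (c : ι → α × β) (g : α) (h : β), (∀ i ∈ A, (c i).2 = h) →
        (∑ i ∈ Aᶜ, G.dist (c i).1 g) ≤ D →
        ∀ g', Step G g g' → CatchI G (mG + 1) (fun j => (c (e j).1).1) g' →
        W (G.boxProd H) c (g', h) := by
      intro D c g h hA hD g' hg hm
      rcases hm with ⟨j, hj⟩ | ⟨x', hx', halt⟩
      · exact W_caught _ _ _ ⟨(e j).1, Prod.ext hj (hA _ (e j).2)⟩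
      · choose u hu hud using fun i : ι => follow G hGc (c i).1 g g' hg
        set c' : ι → α × β := fun i => if hi : i ∈ A then (x' (e.symm ⟨i, hi⟩), h) else
          (u i, (c i).2) with hc'
        have hce : ∀ j, c' (e j).1 = (x' j, h) := by
          intro j
          simp only [hc', dif_pos (e j).2]
          simp
        have hcA : ∀ i ∈ A, (c' i).2 = h := by
          intro i hi
          simp only [hc', dif_pos hi]
        have hcB : ∀ i, i ∉ A → c' i = (u i, (c i).2) := by
          intro i hi
          simp only [hc', dif_neg hi]
        have hstep : ∀ i, Step (G.boxProd H) (c i) (c' i) := by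
          intro i
          by_cases hi : i ∈ A
          · obtain ⟨j, hj⟩ := e.surjective ⟨i, hi⟩
            have hji : (e j).1 = i := by rw [hj]
            subst hji
            rw [hce j]
            have h1 := box_fst (H := H) h (hx' j)
            have h2 : c (e j).1 = ((c (e j).1).1, h) := Prod.ext rfl (hA _ hi)
            rw [h2]
            exact h1
          · rw [hcB i hi]
            exact box_fst (H := H) (c i).2 (hu i)
        refine W_step _ c c' _ hstep ?_
        rcases halt with ⟨j, hj⟩ | halt
        · left
          refine ⟨(e j).1, ?_⟩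
          rw [hce j, hj]
        · right
          refine ihG D c' g' h hcA ?_ ?_
          · refine le_trans (Finset.sum_le_sum fun i hi => ?_) hD
            rw [hcB i (Finset.mem_compl.1 hi)]
            exact hud i
          · intro g'' hg''
            have : (fun j => (c' (e j).1).1) = x' := by
              funext j
              rw [hce j]
            rw [this]
            exact halt g'' hg''
    induction D with
    | zero =>
      intro c g h hA hD hG r' hr
      have hB : ∀ i, i ∉ A → (c i).1 = g := by
        intro i hi
        have h1 := Finset.sum_eq_zero_iff.1 (Nat.le_zero.1 hD) i (Finset.mem_compl.2 hi)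
        exact (hGc.dist_eq_zero_iff).1 h1
      obtain ⟨mH, hmH⟩ := win_unif H _ (hH (fun j => (c (f j).1).2))
      exact box_last G H A a b e f (mG + 1) mH c g h hA hB hG (fun h' _ => hmH h') r' hr
    | succ D ihD =>
      rintro c g h hA hD hG ⟨g', h'⟩ hr
      rcases step_box hr with ⟨hg, rfl⟩ | ⟨rfl, hh⟩
      · exact gmove (D + 1) c g _ hA hD g' hg (hG g' hg)
      · choose u hu hud using fun i : ι => closer G hGc (c i).1 g'
        refine W_step _ c (fun i => if i ∈ A then ((c i).1, h') else (u i, (c i).2)) _ ?_
          (Or.inr (ihD _ g' h' ?_ ?_ ?_))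
        · intro i
          by_cases hi : i ∈ A
          · simp only [if_pos hi]
            have h1 := box_snd (G := G) (c i).1 hh
            rw [← hA i hi] at h1
            exact h1
          · simp only [if_neg hi]
            exact box_fst (H := H) (c i).2 (hu i)
        · intro i hi
          simp only [if_pos hi]
        · by_cases h0 : (∑ i ∈ Aᶜ, G.dist (c i).1 g') = 0
          · have h1 : (∑ i ∈ Aᶜ, G.dist (if i ∈ A then ((c i).1, h') else (u i, (c i).2)).1 g') ≤
                ∑ i ∈ Aᶜ, G.dist (c i).1 g' := by
              refine Finset.sum_le_sum fun i hi => ?_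
              rw [if_neg (Finset.mem_compl.1 hi)]
              have := hud i
              show G.dist (u i) g' ≤ _
              omega
            omega
          · have h1 : (∑ i ∈ Aᶜ, G.dist (if i ∈ A then ((c i).1, h') else (u i, (c i).2)).1 g') <
                ∑ i ∈ Aᶜ, G.dist (c i).1 g' := by
              obtain ⟨i0, hi0, hne⟩ := Finset.exists_ne_zero_of_sum_ne_zero h0
              refine Finset.sum_lt_sum (fun i hi => ?_) ⟨i0, hi0, ?_⟩
              · rw [if_neg (Finset.mem_compl.1 hi)]
                have := hud i
                show G.dist (u i) g' ≤ _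
                omega
              · rw [if_neg (Finset.mem_compl.1 hi0)]
                have := hud i0
                show G.dist (u i0) g' < _
                omega
            omega
        · intro g'' hg''
          have : (fun j => ((if (e j).1 ∈ A then ((c (e j).1).1, h') else
              (u (e j).1, (c (e j).1).2)) : α × β).1) = fun j => (c (e j).1).1 := by
            funext j
            rw [if_pos (e j).2]
          rw [this]
          exact hG g'' hg''

/-- `c(G □ H) ≤ c(G) + c(H)` -/
theorem box_add (G : SimpleGraph α) (H : SimpleGraph β) (hG : G.Connected)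
    (hH : H.Connected) : copNumber (G.boxProd H) ≤ copNumber G + copNumber H := by
  classical
  obtain ⟨g0⟩ := hG.nonempty
  obtain ⟨h0⟩ := hH.nonempty
  have hS : ∀ x y : α × β, Step (G.boxProd H) x y → Step H x.2 y.2 := by
    rintro ⟨g, h⟩ ⟨g', h'⟩ hs
    rcases step_box hs with ⟨_, h1⟩ | ⟨_, h1⟩
    · exact Or.inl h1.symm
    · exact h1
  have h1 := copNumber_le (G.boxProd H)
    (fun _ : Fin (copNumber G) ⊕ Fin (copNumber H) => (g0, h0)) (fun r =>
      place (G.boxProd H) H hS (fun g h h' hh => box_snd g hh) (copNumber G) (copNumber H)
        (by simp) (win_any H hH) (fun A hA c g h hc r' hr => by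
          obtain ⟨e⟩ : Nonempty (Fin (copNumber G) ≃ {i // i ∈ A}) := by
            rw [← Fintype.card_eq, Fintype.card_coe, Fintype.card_fin, hA]
          obtain ⟨f⟩ : Nonempty (Fin (copNumber H) ≃ {i // i ∉ A}) := by
            rw [← Fintype.card_eq, Fintype.card_subtype_compl, Fintype.card_coe, Fintype.card_fin,
              hA]
            simp
          obtain ⟨m, hm⟩ := win_unif G _ (win_any G hG (fun j => (c (e j).1).1))
          exact box_mid G H hG A _ _ e f (win_any H hH) m _ c g h hc le_rfl
            (fun g' _ => hm g') r' hr)
        (copNumber G) ∅ (by simp) _ r.1 r.2 (fun i hi => absurd hi (Finset.notMem_empty i)) r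
        (Or.inl rfl))
  simpa using h1

/-- Let `G` and `H` be connected graphs with `n` and `m` vertices, and let `P` be the Cartesian or
the strong product of `G` and `H`, a graph with `n m` vertices.
(1) `c(P) ≤ c(G) + c(H)`.
(2) `c(P) ≤ 81 (√n (log n + 1) + √m (log m + 1))`.
(3) Meyniel's bound `c(P) ≤ 162 √(n m)` holds as soon as `(log n + 1)² ≤ m` and
`(log m + 1)² ≤ n`. -/
theorem result {α β : Type*} [Fintype α] [Fintype β] (G : SimpleGraph α) (H : SimpleGraph β)
    (hG : G.Connected) (hH : H.Connected) (P : SimpleGraph (α × β))
    (hP : P = G.boxProd H ∨ P = strongProd G H) :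
    copNumber P ≤ copNumber G + copNumber H ∧
    (copNumber P : ℝ) ≤ 81 * (√(Fintype.card α : ℝ) * (Real.log (Fintype.card α) + 1) +
      √(Fintype.card β : ℝ) * (Real.log (Fintype.card β) + 1)) ∧
    ((Real.log (Fintype.card α) + 1) ^ 2 ≤ Fintype.card β →
      (Real.log (Fintype.card β) + 1) ^ 2 ≤ Fintype.card α →
      (copNumber P : ℝ) ≤ 162 * √(Fintype.card (α × β) : ℝ)) := by
  have h1 : copNumber P ≤ copNumber G + copNumber H := by
    rcases hP with rfl | rfl
    · exact box_add G H hG hH
    · exact strong_add G H hG hH
  have h2 : (copNumber P : ℝ) ≤ 81 * (√(Fintype.card α : ℝ) * (Real.log (Fintype.card α) + 1) +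
      √(Fintype.card β : ℝ) * (Real.log (Fintype.card β) + 1)) := by
    have h3 : (copNumber P : ℝ) ≤ copNumber G + copNumber H := by exact_mod_cast h1
    have h4 := graph_bound G hG
    have h5 := graph_bound H hH
    linarith
  refine ⟨h1, h2, fun ha hb => h2.trans ?_⟩
  have hα : Nonempty α := hG.nonempty
  have hβ : Nonempty β := hH.nonempty
  have hn1 : (1 : ℝ) ≤ Fintype.card α := by exact_mod_cast Fintype.card_pos
  have hm1 : (1 : ℝ) ≤ Fintype.card β := by exact_mod_cast Fintype.card_pos
  have hlog1 : 0 ≤ Real.log (Fintype.card α : ℝ) := Real.log_nonneg hn1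
  have hlog2 : 0 ≤ Real.log (Fintype.card β : ℝ) := Real.log_nonneg hm1
  have h3 : Real.log (Fintype.card α) + 1 ≤ √(Fintype.card β : ℝ) :=
    Real.le_sqrt_of_sq_le ha
  have h4 : Real.log (Fintype.card β) + 1 ≤ √(Fintype.card α : ℝ) :=
    Real.le_sqrt_of_sq_le hb
  have h5 : √(Fintype.card (α × β) : ℝ) = √(Fintype.card α : ℝ) * √(Fintype.card β : ℝ) := by
    rw [Fintype.card_prod, Nat.cast_mul, Real.sqrt_mul (by positivity)]
  rw [h5]
  have h6 := mul_le_mul_of_nonneg_left h3 (Real.sqrt_nonneg (Fintype.card α : ℝ))
  have h7 := mul_le_mul_of_nonneg_left h4 (Real.sqrt_nonneg (Fintype.card β : ℝ))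
  linarith

end Pool.Agent.Results.MP_964892_co.Products
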